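import Pool.Agent.Lib.MP_50d2fe_co.Spec

/-!
# BODY and DIFF
-/

set_option autoImplicit false

namespace MP50d2fe

/-- DIFF. -/
theorem specDiff : SpecDiff := by
  intro K hK hint v hv
  obtain ⟨c0, hc0⟩ := hint
  have hcont : Filter.Tendsto (fun e : ℝ => (1 + e) • v) (nhdsWithin 0 (Set.Ioi 0)) (nhds v) := by
    have h1 : Continuous (fun e : ℝ => (1 + e) • v) := by fun_prop
    have h2 := h1.tendsto 0
    simp only [add_zero, one_smul] at h2
    exact h2.mono_left nhdsWithin_le_nhds
  have hmem := hcont.eventually (isOpen_interior.mem_nhds hv)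
  obtain ⟨e, he1, he2⟩ := (hmem.and self_mem_nhdsWithin).exists
  have he : 0 < e := he2
  obtain ⟨x, hx, y, hy, hxy⟩ := interior_subset he1
  have h1e : (0 : ℝ) < 1 + e := by linarith
  refine ⟨(1 / (1 + e)) • x + (e / (1 + e)) • c0,
    hK.combo_self_interior_mem_interior hx hc0 (by positivity) (by positivity)
      (by field_simp), (1 / (1 + e)) • y + (e / (1 + e)) • c0,
    hK.combo_self_interior_mem_interior hy hc0 (by positivity) (by positivity)
      (by field_simp), ?_⟩
  rw [add_sub_add_right_eq_sub, ← smul_sub, ← hxy, smul_smul, one_div, inv_mul_cancel₀ h1e.ne',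
    one_smul]

/-- BODY. -/
theorem specBody : SpecBody := by
  intro K hcomp hconv hne f hf hdiff
  -- coordinates
  set F : EuclideanSpace ℝ (Fin 3) →ₗ[ℝ] (Fin 3 → ℝ) := LinearMap.pi f with hF
  have hspan : Submodule.span ℝ (Set.range f) = ⊤ := by
    apply hf.span_eq_top_of_card_eq_finrank'
    rw [Fintype.card_fin]
    have : Module.finrank ℝ (Module.Dual ℝ (EuclideanSpace ℝ (Fin 3))) = 3 := by
      rw [Subspace.dual_finrank_eq]
      simp
    exact this.symm
  have hinj : Function.Injective F := by
    rw [injective_iff_map_eq_zero]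
    intro x hx
    have hx' : ∀ i, f i x = 0 := fun i => congrFun hx i
    rw [← Module.forall_dual_apply_eq_zero_iff ℝ]
    intro g
    have hg : g ∈ Submodule.span ℝ (Set.range f) := by rw [hspan]; trivial
    induction hg using Submodule.span_induction with
    | mem g hg => obtain ⟨i, rfl⟩ := hg; exact hx' i
    | zero => rfl
    | add a b _ _ ha hb => rw [LinearMap.add_apply, ha, hb, add_zero]
    | smul c a _ ha => rw [LinearMap.smul_apply, ha, smul_zero]
  set e : EuclideanSpace ℝ (Fin 3) ≃ₗ[ℝ] (Fin 3 → ℝ) :=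
    LinearEquiv.ofInjectiveOfFinrankEq F hinj (by simp) with he
  have hei : ∀ x i, e x i = f i x := fun x i => rfl
  -- minima
  have hmin : ∀ i, ∃ x ∈ K, ∀ y ∈ K, f i x ≤ f i y := by
    intro i
    have hc : Continuous (f i) := LinearMap.continuous_of_finiteDimensional _
    obtain ⟨x, hx, hx'⟩ := hcomp.exists_isMinOn hne hc.continuousOn
    exact ⟨x, hx, fun y hy => hx' hy⟩
  choose xm hxm hxm' using hmin
  set m : Fin 3 → ℝ := fun i => f i (xm i) with hm
  have hlow : ∀ x ∈ K, ∀ i, m i ≤ f i x := fun x hx i => hxm' i x hx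
  have hup : ∀ x ∈ K, ∀ i, f i x ≤ m i + 1 := by
    intro x hx i
    have h1 := (hdiff (x - xm i)).mp ⟨x, hx, xm i, hxm i, rfl⟩ i
    rw [map_sub] at h1
    have h2 := (abs_le.mp h1).2
    have h3 : m i = f i (xm i) := rfl
    linarith
  -- corners
  have hcorner : ∀ s : Fin 3 → ℝ, (∀ i, s i = m i ∨ s i = m i + 1) → e.symm s ∈ K := by
    intro s hs
    set ε : Fin 3 → ℝ := fun i => 2 * (s i - m i) - 1 with hε
    have hε1 : ∀ i, ε i = -1 ∨ ε i = 1 := by
      intro i
      rcases hs i with h | h
      · left; simp only [hε, h]; ring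
      · right; simp only [hε, h]; ring
    obtain ⟨a, ha, b, hb, hab⟩ := (hdiff (e.symm ε)).mpr (by
      intro i
      rw [← hei, LinearEquiv.apply_symm_apply]
      rcases hε1 i with h | h <;> rw [h] <;> simp)
    have hab' : ∀ i, ε i = f i a - f i b := by
      intro i
      rw [← map_sub, ← hab, ← hei, LinearEquiv.apply_symm_apply]
    have : e.symm s = a := by
      rw [LinearEquiv.symm_apply_eq]
      funext i
      rw [hei]
      have h1 := hab' i
      have h2 := hlow a ha i
      have h3 := hup a ha i
      have h4 := hlow b hb i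
      have h5 := hup b hb i
      rcases hs i with h | h
      · have h6 : ε i = -1 := by simp only [hε, h]; ring
        linarith
      · have h6 : ε i = 1 := by simp only [hε, h]; ring
        linarith
    rw [this]
    exact ha
  -- the box is contained in K
  have hbox : ∀ s : Fin 3 → ℝ, (∀ i, m i ≤ s i ∧ s i ≤ m i + 1) → e.symm s ∈ K := by
    intro s hs
    have hconv' : Convex ℝ (e.symm ⁻¹' K) := hconv.linear_preimage e.symm.toLinearMap
    have hsub : Set.univ.pi (fun i => ({m i, m i + 1} : Set ℝ)) ⊆ e.symm ⁻¹' K := by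
      intro s hs
      apply hcorner
      intro i
      have := hs i (Set.mem_univ i)
      simpa using this
    have h1 := convexHull_min hsub hconv'
    apply h1
    rw [convexHull_pi]
    intro i _
    show s i ∈ convexHull ℝ ({m i, m i + 1} : Set ℝ)
    rw [convexHull_pair, segment_eq_Icc (by linarith)]
    exact ⟨(hs i).1, (hs i).2⟩
  -- conclusion
  refine ⟨e.symm m, (Pi.basisFun ℝ (Fin 3)).map e.symm, Module.Basis.linearIndependent _, ?_⟩
  have hsum : ∀ t : Fin 3 → ℝ, e.symm m + ∑ k, t k • ((Pi.basisFun ℝ (Fin 3)).map e.symm) k =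
      e.symm (m + t) := by
    intro t
    rw [map_add]
    congr 1
    have : t = ∑ k, t k • (Pi.basisFun ℝ (Fin 3)) k := by
      have := (Pi.basisFun ℝ (Fin 3)).sum_repr t
      simpa using this.symm
    conv_rhs => rw [this]
    rw [map_sum]
    refine Finset.sum_congr rfl fun k _ => ?_
    rw [Module.Basis.map_apply, map_smul]
  ext x
  constructor
  · intro hx
    refine ⟨fun i => f i x - m i, fun k => ⟨?_, ?_⟩, ?_⟩
    · have := hlow x hx k
      linarith
    · have := hup x hx k
      linarith
    · rw [hsum, ← LinearEquiv.symm_apply_apply e x]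
      congr 1
      funext i
      rw [Pi.add_apply]
      rw [LinearEquiv.symm_apply_apply, hei]
      ring
  · rintro ⟨t, ht, rfl⟩
    rw [hsum]
    apply hbox
    intro i
    rw [Pi.add_apply]
    have := ht i
    exact ⟨by linarith [this.1], by linarith [this.2]⟩

end MP50d2fe
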