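import Pool.Agent.Lib.MP_50d2fe_co.Spec

/-!
COVER: the volume argument.
-/

set_option autoImplicit false

open MeasureTheory

namespace MP50d2fe.Cover

open MP50d2fe Metric Set

/-- the part of `R T t` in the open ball -/
def Ro {E : Type} [NormedAddCommGroup E] (T : Finset E) (t : E) : Set E :=
  {z | ‖z‖ < 1 / 2 ∧ ∀ s ∈ T, 1 / 2 ≤ ‖z - t - s‖}

/-- the part of the ball of radius `3/2` which is not covered by the balls around `0` and `T` -/
def U {E : Type} [NormedAddCommGroup E] (T : Finset E) : Set E :=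
  {x | ‖x‖ ≤ 3 / 2 ∧ 1 / 2 ≤ ‖x‖ ∧ ∀ t ∈ T, 1 / 2 ≤ ‖x - t‖}

section

variable {E : Type} [NormedAddCommGroup E] [NormedSpace ℝ E]

theorem meas_Ro [MeasurableSpace E] [BorelSpace E] (T : Finset E) (t : E) :
    MeasurableSet (Ro T t) := by
  have h : Ro T t = {z : E | ‖z‖ < 1 / 2} ∩ ⋂ s ∈ T, {z : E | 1 / 2 ≤ ‖z - t - s‖} := by
    ext z
    simp [Ro]
  rw [h]
  apply MeasurableSet.inter
  · exact (isOpen_lt (by fun_prop) (by fun_prop)).measurableSet
  · apply Finset.measurableSet_biInter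
    intro s _
    exact (isClosed_le (by fun_prop) (by fun_prop)).measurableSet

theorem meas_U [MeasurableSpace E] [BorelSpace E] (T : Finset E) : MeasurableSet (U T) := by
  have h : U T = {z : E | ‖z‖ ≤ 3 / 2} ∩ ({z : E | 1 / 2 ≤ ‖z‖} ∩
      ⋂ s ∈ T, {z : E | 1 / 2 ≤ ‖z - s‖}) := by
    ext z
    simp [U]
  rw [h]
  apply MeasurableSet.inter
  · exact (isClosed_le (by fun_prop) (by fun_prop)).measurableSet
  · apply MeasurableSet.inter
    · exact (isClosed_le (by fun_prop) (by fun_prop)).measurableSet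
    · apply Finset.measurableSet_biInter
      intro s _
      exact (isClosed_le (by fun_prop) (by fun_prop)).measurableSet

/-- the translate of `Ro T t` by `-t` -/
def Im (T : Finset E) (t : E) : Set E := (fun x => x + t) ⁻¹' Ro T t

theorem Im_sub_U {T : Finset E} (hT : Conf T) {t : E} (ht : t ∈ T) : Im T t ⊆ U T := by
  intro x hx
  obtain ⟨h1, h2⟩ := hx
  have hn := hT.norm t ht
  have e1 : x = (x + t) - t := by abel
  refine ⟨?_, ?_, ?_⟩
  · have h3 := norm_sub_le (x + t) t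
    rw [← e1] at h3
    linarith
  · have h3 := norm_sub_norm_le t (x + t)
    have e2 : t - (x + t) = -x := by abel
    rw [e2, norm_neg] at h3
    linarith
  · intro s hs
    have h3 := h2 s hs
    rwa [show x + t - t - s = x - s by abel] at h3

theorem Im_ball {T : Finset E} {t : E} {x : E} (hx : x ∈ Im T t) : ‖x + t‖ < 1 / 2 := hx.1

theorem Im_disj {T : Finset E} (hT : Conf T) {t t' : E} (ht : t ∈ T) (ht' : t' ∈ T)
    (hne : t ≠ t') : Disjoint (Im T t) (Im T t') := by
  rw [Set.disjoint_left]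
  intro x h1 h2
  have h3 := hT.sep t ht t' ht' hne
  have h4 := norm_sub_le (x + t) (x + t')
  rw [show x + t - (x + t') = t - t' by abel] at h4
  have h5 := Im_ball h1
  have h6 := Im_ball h2
  linarith

theorem volume [MeasurableSpace E] [BorelSpace E] (μ : Measure E) [μ.IsAddHaarMeasure]
    (hM : SpecMatch) {T : Finset E} (hfr : Module.finrank ℝ E = 3) (hT : Conf T) :
    μ (⋃ t ∈ T, Im T t) = μ (ball (0 : E) (1 / 2)) ∧ μ (U T) = μ (ball (0 : E) (1 / 2)) ∧
      ∑ t ∈ T, μ (Ro T t) ≤ μ (⋃ t ∈ T, Ro T t) ∧ μ (ball (0 : E) (1 / 2)) < ⊤ := by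
  have : FiniteDimensional ℝ E := Module.finite_of_finrank_pos (by omega)
  have : ProperSpace E := FiniteDimensional.proper_real E
  set V := μ (ball (0 : E) (1 / 2)) with hV
  have hVfin : V < ⊤ := by
    refine lt_of_le_of_lt (measure_mono ball_subset_closedBall) ?_
    exact (isCompact_closedBall (0 : E) (1 / 2)).measure_lt_top
  have hball : ∀ x : E, μ (ball x (1 / 2)) = V := by
    intro x
    have h2 : (0 : ℝ) < 1 / 2 := by norm_num
    rw [hV, Measure.addHaar_ball_of_pos μ x h2, Measure.addHaar_ball_of_pos μ 0 h2]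
  have hbig : μ (closedBall (0 : E) (3 / 2)) = 27 * V := by
    have h2 : (0 : ℝ) < 1 / 2 := by norm_num
    have h3 : (0 : ℝ) ≤ 3 / 2 := by norm_num
    rw [hV, Measure.addHaar_closedBall μ 0 h3, Measure.addHaar_ball_of_pos μ 0 h2,
      hfr, ← mul_assoc]
    congr 1
    rw [show ((3 : ℝ) / 2) ^ 3 = 27 * (1 / 2) ^ 3 by norm_num,
      ENNReal.ofReal_mul (by norm_num)]
    congr 1
    simp
  -- the union of the balls around T
  have hdisj : (T : Set E).PairwiseDisjoint (fun t => ball t (1 / 2)) := by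
    intro t ht t' ht' hne
    apply ball_disjoint_ball
    rw [dist_eq_norm]
    have := hT.sep t ht t' ht' hne
    linarith
  have hsumT : μ (⋃ t ∈ T, ball t (1 / 2)) = 25 * V := by
    rw [measure_biUnion_finset hdisj (fun t _ => measurableSet_ball)]
    rw [Finset.sum_congr rfl (fun t _ => hball t), Finset.sum_const, hT.card, nsmul_eq_mul]
    norm_num
  have hd1 : Disjoint (ball (0 : E) (1 / 2)) (⋃ t ∈ T, ball t (1 / 2)) := by
    rw [Set.disjoint_iUnion₂_right]
    intro t ht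
    apply ball_disjoint_ball
    rw [dist_eq_norm, zero_sub, norm_neg, hT.norm t ht]
    norm_num
  have hd2 : Disjoint (ball (0 : E) (1 / 2) ∪ ⋃ t ∈ T, ball t (1 / 2)) (U T) := by
    rw [Set.disjoint_left]
    rintro x hx ⟨h1, h2, h3⟩
    rcases hx with hx | hx
    · rw [mem_ball_zero_iff] at hx
      linarith
    · rw [Set.mem_iUnion₂] at hx
      obtain ⟨t, ht, hx⟩ := hx
      have := h3 t ht
      rw [mem_ball, dist_eq_norm] at hx
      linarith
  have hsub : (ball (0 : E) (1 / 2) ∪ ⋃ t ∈ T, ball t (1 / 2)) ∪ U T ⊆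
      closedBall (0 : E) (3 / 2) := by
    intro x hx
    rw [mem_closedBall_zero_iff]
    rcases hx with (hx | hx) | hx
    · rw [mem_ball_zero_iff] at hx
      linarith
    · rw [Set.mem_iUnion₂] at hx
      obtain ⟨t, ht, hx⟩ := hx
      rw [mem_ball, dist_eq_norm] at hx
      have h1 := norm_add_le (x - t) t
      rw [sub_add_cancel, hT.norm t ht] at h1
      linarith
    · exact hx.1
  have hU : μ (U T) ≤ V := by
    have h1 := measure_mono (μ := μ) hsub
    rw [measure_union hd2 (meas_U T),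
      measure_union hd1 (Finset.measurableSet_biUnion T (fun t _ => measurableSet_ball)),
      hsumT, hbig, ← hV] at h1
    have h2 : (27 : ENNReal) * V = 26 * V + V := by ring
    rw [h2, show V + 25 * V = 26 * V by ring] at h1
    exact (ENNReal.add_le_add_iff_left (ENNReal.mul_ne_top (by norm_num) hVfin.ne)).1 h1
  have hmI : ∀ t, MeasurableSet (Im T t) := fun t =>
    (meas_Ro T t).preimage (by fun_prop : Measurable fun x : E => x + t)
  have hmuI : ∀ t, μ (Im T t) = μ (Ro T t) := fun t => measure_preimage_add_right μ t (Ro T t)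
  have hIU : μ (⋃ t ∈ T, Im T t) = ∑ t ∈ T, μ (Ro T t) := by
    rw [measure_biUnion_finset (fun t ht t' ht' hne => Im_disj hT ht ht' hne)
      (fun t _ => hmI t)]
    exact Finset.sum_congr rfl fun t _ => hmuI t
  have hle : μ (⋃ t ∈ T, Im T t) ≤ μ (U T) :=
    measure_mono (Set.iUnion₂_subset fun t ht => Im_sub_U hT ht)
  have hcov : ball (0 : E) (1 / 2) ⊆ ⋃ t ∈ T, Ro T t := by
    intro z hz
    rw [mem_ball_zero_iff] at hz
    obtain ⟨t, ht, h⟩ := hM E T hT z hz.le
    exact Set.mem_iUnion₂.2 ⟨t, ht, hz, h⟩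
  have hV1 : V ≤ μ (⋃ t ∈ T, Ro T t) := measure_mono hcov
  have hV2 : μ (⋃ t ∈ T, Ro T t) ≤ ∑ t ∈ T, μ (Ro T t) := measure_biUnion_finset_le T _
  refine ⟨le_antisymm (hle.trans hU) ?_, le_antisymm hU ?_, ?_, hVfin⟩
  · rw [hIU]; exact hV1.trans hV2
  · rw [← hIU] at hV2
    exact hV1.trans (hV2.trans hle)
  · rw [← hIU]
    exact (hle.trans hU).trans hV1

/-- a point slightly closer to the origin -/
theorem shrink {x : E} {r : ℝ} (hr : 0 < r) (hx : ‖x‖ ≤ r) {P : Set E} (hP : IsOpen P)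
    (hxP : x ∈ P) : ∃ y ∈ P, ‖y‖ < r := by
  have hc : Continuous fun s : ℝ => s • x := by fun_prop
  have h1 : (fun s : ℝ => s • x) ⁻¹' P ∈ nhds (1 : ℝ) := by
    apply (hP.preimage hc).mem_nhds
    simpa using hxP
  rw [Metric.mem_nhds_iff] at h1
  obtain ⟨ε, hε, h2⟩ := h1
  set s : ℝ := 1 - min (ε / 2) (1 / 2) with hs
  have hm1 : 0 < min (ε / 2) (1 / 2) := lt_min (by positivity) (by norm_num)
  have hm2 : min (ε / 2) (1 / 2) ≤ ε / 2 := min_le_left _ _
  have hm3 : min (ε / 2) (1 / 2) ≤ 1 / 2 := min_le_right _ _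
  refine ⟨s • x, h2 ?_, ?_⟩
  · rw [mem_ball, Real.dist_eq, hs, show 1 - min (ε / 2) (1 / 2) - 1 = -min (ε / 2) (1 / 2) by ring,
      abs_neg, abs_of_pos hm1]
    linarith
  · rw [norm_smul, Real.norm_eq_abs, abs_of_pos (by linarith : 0 < s)]
    have h3 : s < 1 := by linarith
    have h4 : 0 < s := by linarith
    calc s * ‖x‖ ≤ s * r := by gcongr
      _ < 1 * r := by gcongr
      _ = r := one_mul r

theorem partC [MeasurableSpace E] [BorelSpace E] (μ : Measure E) [μ.IsAddHaarMeasure]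
    (hM : SpecMatch) {T : Finset E} (hfr : Module.finrank ℝ E = 3) (hT : Conf T)
    {t t' : E} (ht : t ∈ T) (ht' : t' ∈ T) (hne : t ≠ t') : μ (R T t ∩ R T t') = 0 := by
  classical
  have : FiniteDimensional ℝ E := Module.finite_of_finrank_pos (by omega)
  have : ProperSpace E := FiniteDimensional.proper_real E
  obtain ⟨h1, h2, h3, h4⟩ := volume μ hM hfr hT
  have hfin : ∀ s, μ (Ro T s) ≠ ⊤ := by
    intro s
    refine (lt_of_le_of_lt (measure_mono ?_) h4).ne
    intro z hz
    rw [mem_ball_zero_iff]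
    exact hz.1
  have h5 : μ (Ro T t ∩ Ro T t') = 0 := by
    set S := (T.erase t).erase t' with hS
    have ht2 : t' ∈ T.erase t := Finset.mem_erase.2 ⟨Ne.symm hne, ht'⟩
    have hsum : ∑ s ∈ T, μ (Ro T s) = μ (Ro T t) + (μ (Ro T t') + ∑ s ∈ S, μ (Ro T s)) := by
      rw [← Finset.add_sum_erase T _ ht, ← Finset.add_sum_erase (T.erase t) _ ht2]
    have hun : μ (⋃ s ∈ T, Ro T s) ≤ μ (Ro T t ∪ Ro T t') + ∑ s ∈ S, μ (Ro T s) := by
      have hsub : (⋃ s ∈ T, Ro T s) ⊆ (Ro T t ∪ Ro T t') ∪ ⋃ s ∈ S, Ro T s := by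
        intro z hz
        rw [Set.mem_iUnion₂] at hz
        obtain ⟨s, hs, hz⟩ := hz
        by_cases e1 : s = t
        · left; left; rw [← e1]; exact hz
        · by_cases e2 : s = t'
          · left; right; rw [← e2]; exact hz
          · right
            exact Set.mem_iUnion₂.2 ⟨s, Finset.mem_erase.2 ⟨e2, Finset.mem_erase.2 ⟨e1, hs⟩⟩, hz⟩
      refine (measure_mono hsub).trans ((measure_union_le _ _).trans ?_)
      gcongr
      exact measure_biUnion_finset_le S _
    have huni := measure_union_add_inter (μ := μ) (Ro T t) (meas_Ro T t')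
    have hSfin : ∑ s ∈ S, μ (Ro T s) ≠ ⊤ := ENNReal.sum_ne_top.2 fun s _ => hfin s
    have hBfin : μ (Ro T t ∪ Ro T t') ≠ ⊤ :=
      measure_union_ne_top (hfin t) (hfin t')
    have h6 : μ (Ro T t ∪ Ro T t') + μ (Ro T t ∩ Ro T t') + ∑ s ∈ S, μ (Ro T s) ≤
        μ (Ro T t ∪ Ro T t') + ∑ s ∈ S, μ (Ro T s) := by
      rw [huni]
      calc _ = ∑ s ∈ T, μ (Ro T s) := by rw [hsum, add_assoc]
        _ ≤ _ := h3.trans hun
    have h7 : μ (Ro T t ∪ Ro T t') + ∑ s ∈ S, μ (Ro T s) + μ (Ro T t ∩ Ro T t') ≤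
        μ (Ro T t ∪ Ro T t') + ∑ s ∈ S, μ (Ro T s) + 0 := by
      rw [add_zero]
      calc _ = μ (Ro T t ∪ Ro T t') + μ (Ro T t ∩ Ro T t') + ∑ s ∈ S, μ (Ro T s) := by ring
        _ ≤ _ := h6
    have h8 := (ENNReal.add_le_add_iff_left (ENNReal.add_ne_top.2 ⟨hBfin, hSfin⟩)).1 h7
    exact le_antisymm h8 (by simp)
  have h6 : R T t ∩ R T t' ⊆ (Ro T t ∩ Ro T t') ∪ sphere (0 : E) (1 / 2) := by
    rintro z ⟨⟨a1, a2⟩, ⟨b1, b2⟩⟩
    rcases lt_or_eq_of_le a1 with h | h
    · left; exact ⟨⟨h, a2⟩, ⟨h, b2⟩⟩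
    · right; rw [mem_sphere_zero_iff_norm]; exact h
  refine measure_mono_null h6 ?_
  rw [measure_union_null_iff]
  exact ⟨h5, Measure.addHaar_sphere_of_ne_zero μ 0 (by norm_num)⟩

end

end MP50d2fe.Cover

namespace MP50d2fe

open Metric Set

theorem specCoverC (hM : SpecMatch) : SpecCoverC := by
  intro E _ _ _ _ μ _ T hfr hT t ht t' ht' hne
  exact Cover.partC μ hM hfr hT ht ht' hne

theorem specCoverA (hM : SpecMatch) : SpecCoverA := by
  intro E _ _ T hfr hT x hx
  by_contra hcon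
  push Not at hcon
  obtain ⟨hx1, hx2⟩ := hcon
  let _ : MeasurableSpace E := borel E
  have : BorelSpace E := ⟨rfl⟩
  have : FiniteDimensional ℝ E := Module.finite_of_finrank_pos (by omega)
  have : ProperSpace E := FiniteDimensional.proper_real E
  let μ : Measure E := Measure.addHaar
  obtain ⟨h1, h2, h3, h4⟩ := Cover.volume μ hM hfr hT
  let P : Set E := {y | 1 / 2 < ‖y‖} ∩ ⋂ t ∈ X T, {y | 1 / 2 < ‖y - t‖}
  have hP : IsOpen P := by
    apply IsOpen.inter
    · exact isOpen_lt (by fun_prop) (by fun_prop)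
    · apply isOpen_biInter_finset
      intro t _
      exact isOpen_lt (by fun_prop) (by fun_prop)
  have hxP : x ∈ P := by
    refine ⟨hx1, ?_⟩
    rw [Set.mem_iInter₂]
    intro t ht
    exact hx2 t ht
  obtain ⟨y, hy, hyr⟩ := Cover.shrink (by norm_num : (0 : ℝ) < 3 / 2) hx hP hxP
  let O : Set E := P ∩ ball (0 : E) (3 / 2)
  have hO : IsOpen O := hP.inter isOpen_ball
  have hOne : O.Nonempty := ⟨y, hy, by rw [mem_ball_zero_iff]; exact hyr⟩
  have hOpos : 0 < μ O := hO.measure_pos μ hOne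
  have hXp : ∀ z ∈ P, ∀ t ∈ X T, 1 / 2 < ‖z - t‖ := by
    intro z hz t ht
    have := hz.2
    rw [Set.mem_iInter₂] at this
    exact this t ht
  have hdis : Disjoint O (⋃ t ∈ T, Cover.Im T t) := by
    rw [Set.disjoint_iUnion₂_right]
    intro t ht
    rw [Set.disjoint_left]
    intro z hz hz2
    have a1 := hXp z hz.1 (-t) (neg_mem_X (mem_X.2 (Or.inl ht)))
    rw [sub_neg_eq_add] at a1
    have a2 := Cover.Im_ball hz2
    linarith
  have hsub : O ∪ (⋃ t ∈ T, Cover.Im T t) ⊆ Cover.U T := by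
    intro z hz
    rcases hz with hz | hz
    · refine ⟨?_, hz.1.1.le, fun t ht => (hXp z hz.1 t (mem_X.2 (Or.inl ht))).le⟩
      have := hz.2
      rw [mem_ball_zero_iff] at this
      exact this.le
    · rw [Set.mem_iUnion₂] at hz
      obtain ⟨t, ht, hz⟩ := hz
      exact Cover.Im_sub_U hT ht hz
  have h5 := measure_mono (μ := μ) hsub
  rw [measure_union' hdis hO.measurableSet, h1, h2] at h5
  have h6 : μ O + μ (ball (0 : E) (1 / 2)) ≤ 0 + μ (ball (0 : E) (1 / 2)) := by
    rw [zero_add]; exact h5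
  have h7 := (ENNReal.add_le_add_iff_right h4.ne).1 h6
  exact absurd hOpos (not_lt.2 h7)

theorem specCoverB (hM : SpecMatch) : SpecCoverB := by
  intro E _ _ T hfr hT z hz t ht t' ht' hne
  by_contra hcon
  push Not at hcon
  let _ : MeasurableSpace E := borel E
  have : BorelSpace E := ⟨rfl⟩
  have : FiniteDimensional ℝ E := Module.finite_of_finrank_pos (by omega)
  have : ProperSpace E := FiniteDimensional.proper_real E
  let μ : Measure E := Measure.addHaar
  have h0 := Cover.partC μ hM hfr hT ht ht' hne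
  let P : Set E := ⋂ s ∈ T, ({y | 1 / 2 < ‖y - t - s‖} ∩ {y | 1 / 2 < ‖y - t' - s‖})
  have hP : IsOpen P := by
    apply isOpen_biInter_finset
    intro s _
    apply IsOpen.inter
    · exact isOpen_lt (by fun_prop) (by fun_prop)
    · exact isOpen_lt (by fun_prop) (by fun_prop)
  have hzP : z ∈ P := by
    rw [Set.mem_iInter₂]
    intro s hs
    exact hcon s hs
  obtain ⟨y, hy, hyr⟩ := Cover.shrink (by norm_num : (0 : ℝ) < 1 / 2) hz hP hzP
  let O : Set E := P ∩ ball (0 : E) (1 / 2)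
  have hO : IsOpen O := hP.inter isOpen_ball
  have hOne : O.Nonempty := ⟨y, hy, by rw [mem_ball_zero_iff]; exact hyr⟩
  have hOpos : 0 < μ O := hO.measure_pos μ hOne
  have hsub : O ⊆ R T t ∩ R T t' := by
    intro w hw
    have h1 := hw.1
    rw [Set.mem_iInter₂] at h1
    have h2 := hw.2
    rw [mem_ball_zero_iff] at h2
    exact ⟨⟨h2.le, fun s hs => (h1 s hs).1.le⟩, ⟨h2.le, fun s hs => (h1 s hs).2.le⟩⟩
  have h5 := measure_mono (μ := μ) hsub
  rw [h0] at h5
  exact absurd hOpos (not_lt.2 h5)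

end MP50d2fe
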