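import Mathlib

/-!
MP_50d2fe_co (frozen statement S08733): a convex body in R^3 touched by 25 nonoverlapping translates
is a parallelepiped.  Everything happens in a normed space `E` of dimension 3 whose unit ball is the
difference body.  `T` = the 25 translation vectors.
-/

set_option autoImplicit false

open MeasureTheory

namespace MP50d2fe

/-- 25 unit vectors with mutual distances at least 1. -/
structure Conf {E : Type} [NormedAddCommGroup E] (T : Finset E) : Prop where
  card : T.card = 25
  norm : ∀ t ∈ T, ‖t‖ = 1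
  sep : ∀ t ∈ T, ∀ t' ∈ T, t ≠ t' → 1 ≤ ‖t - t'‖

/-- The symmetrised set `T ∪ -T`. -/
noncomputable def X {E : Type} [NormedAddCommGroup E] (T : Finset E) : Finset E := by
  classical exact T ∪ T.image (fun x => -x)

theorem mem_X {E : Type} [NormedAddCommGroup E] {T : Finset E} {x : E} :
    x ∈ X T ↔ x ∈ T ∨ -x ∈ T := by
  classical
  unfold X
  rw [Finset.mem_union, Finset.mem_image]
  constructor
  · rintro (h | ⟨a, ha, rfl⟩)
    · exact Or.inl h
    · exact Or.inr (by simpa using ha)
  · rintro (h | h)
    · exact Or.inl h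
    · exact Or.inr ⟨-x, h, by simp⟩

theorem neg_mem_X {E : Type} [NormedAddCommGroup E] {T : Finset E} {x : E} (h : x ∈ X T) :
    -x ∈ X T := by
  rw [mem_X] at h ⊢
  rcases h with h | h
  · exact Or.inr (by simpa using h)
  · exact Or.inl h

theorem Conf.normX {E : Type} [NormedAddCommGroup E] {T : Finset E} (hT : Conf T) {x : E}
    (h : x ∈ X T) : ‖x‖ = 1 := by
  rw [mem_X] at h
  rcases h with h | h
  · exact hT.norm x h
  · rw [← norm_neg]; exact hT.norm _ h

/-- The set of `z` in the ball of radius 1/2 for which `t` is unmatched. -/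
def R {E : Type} [NormedAddCommGroup E] (T : Finset E) (t : E) : Set E :=
  {z | ‖z‖ ≤ 1 / 2 ∧ ∀ s ∈ T, 1 / 2 ≤ ‖z - t - s‖}

end MP50d2fe
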