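import Pool.Agent.Lib.MP_50d2fe_co.Spec

/-!
# DUAL and HULL
-/

set_option autoImplicit false

namespace MP50d2fe

namespace Dual

theorem finDim {E : Type} [NormedAddCommGroup E] [NormedSpace ℝ E]
    (h : Module.finrank ℝ E = 3) : FiniteDimensional ℝ E :=
  Module.finite_of_finrank_pos (by omega)

/-- a functional attains its norm on the unit ball -/
theorem attain {E : Type} [NormedAddCommGroup E] [NormedSpace ℝ E] [FiniteDimensional ℝ E]
    (f : E →L[ℝ] ℝ) : ∃ x : E, ‖x‖ ≤ 1 ∧ f x = ‖f‖ := by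
  have : ProperSpace E := FiniteDimensional.proper ℝ E
  obtain ⟨x, hx, hmax⟩ := (isCompact_closedBall (0 : E) 1).exists_isMaxOn
    ⟨0, Metric.mem_closedBall_self zero_le_one⟩ f.continuous.continuousOn
  rw [mem_closedBall_zero_iff] at hx
  refine ⟨x, hx, le_antisymm ?_ ?_⟩
  · calc f x ≤ ‖f x‖ := le_abs_self _
      _ ≤ ‖f‖ * ‖x‖ := f.le_opNorm x
      _ ≤ ‖f‖ * 1 := mul_le_mul_of_nonneg_left hx (norm_nonneg _)
      _ = ‖f‖ := mul_one _
  · have h0 : ∀ y : E, ‖y‖ ≤ 1 → f y ≤ f x := by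
      intro y hy
      exact hmax (mem_closedBall_zero_iff.2 hy)
    have hx0 : 0 ≤ f x := by
      have := h0 0 (by simp)
      simpa using this
    refine f.opNorm_le_bound hx0 ?_
    intro y
    by_cases hy : y = 0
    · simp [hy]
    · have hn : 0 < ‖y‖ := norm_pos_iff.2 hy
      have h1 : ∀ c : ℝ, |c| = 1 → c * f y ≤ f x * ‖y‖ := by
        intro c hc
        have h2 := h0 ((c / ‖y‖) • y) (by
          rw [norm_smul, Real.norm_eq_abs, abs_div, hc, abs_of_pos hn]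
          rw [one_div, inv_mul_cancel₀ hn.ne'])
        rw [map_smul, smul_eq_mul, div_mul_eq_mul_div, div_le_iff₀ hn] at h2
        exact h2
      rw [Real.norm_eq_abs]
      refine abs_le.2 ⟨?_, ?_⟩
      · have := h1 (-1) (by norm_num)
        linarith
      · have := h1 1 (by norm_num)
        linarith

theorem X_nonempty {E : Type} [NormedAddCommGroup E] {T : Finset E} (hT : Conf T) :
    ∃ t, t ∈ X T := by
  have h : 0 < T.card := by rw [hT.card]; norm_num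
  obtain ⟨t, ht⟩ := Finset.card_pos.1 h
  exact ⟨t, mem_X.2 (Or.inl ht)⟩

end Dual

theorem specDual (hA : SpecCoverA) : SpecDual := by
  intro E _ _ T hE hT f
  have := Dual.finDim hE
  obtain ⟨x, hx, hfx⟩ := Dual.attain f
  have h1 : ‖(3 / 2 : ℝ) • x‖ ≤ 3 / 2 := by
    rw [norm_smul, Real.norm_eq_abs, abs_of_pos (by norm_num : (0:ℝ) < 3 / 2)]
    linarith
  rcases hA E T hE hT ((3 / 2 : ℝ) • x) h1 with h2 | ⟨t, ht, h2⟩
  · have h3 : ‖x‖ ≤ 1 / 3 := by
      rw [norm_smul, Real.norm_eq_abs, abs_of_pos (by norm_num : (0:ℝ) < 3 / 2)] at h2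
      linarith
    have h4 : f x ≤ ‖f‖ * ‖x‖ := (le_abs_self _).trans (f.le_opNorm x)
    have h5 : ‖f‖ * ‖x‖ ≤ ‖f‖ * (1 / 3) := mul_le_mul_of_nonneg_left h3 (norm_nonneg _)
    have h6 : ‖f‖ = 0 := by
      have := norm_nonneg f
      linarith
    obtain ⟨t, ht⟩ := Dual.X_nonempty hT
    refine ⟨t, ht, ?_⟩
    rw [h6, norm_eq_zero.1 h6]
    rfl
  · refine ⟨t, ht, le_antisymm ?_ ?_⟩
    · calc f t ≤ ‖f t‖ := le_abs_self _
        _ ≤ ‖f‖ * ‖t‖ := f.le_opNorm t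
        _ = ‖f‖ := by rw [hT.normX ht, mul_one]
    · have h3 : f ((3 / 2 : ℝ) • x - t) ≤ ‖f‖ * ‖(3 / 2 : ℝ) • x - t‖ :=
        (le_abs_self _).trans (f.le_opNorm _)
      have h4 : ‖f‖ * ‖(3 / 2 : ℝ) • x - t‖ ≤ ‖f‖ * (1 / 2) :=
        mul_le_mul_of_nonneg_left h2 (norm_nonneg _)
      rw [map_sub, map_smul, smul_eq_mul, hfx] at h3
      linarith

theorem specHull (h : SpecDual) : SpecHull := by
  intro E _ _ T hE hT x hx
  have := Dual.finDim hE
  by_contra hcon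
  have hc : IsClosed (convexHull ℝ (X T : Set E)) :=
    (Set.Finite.isCompact_convexHull ℝ (X T).finite_toSet).isClosed
  obtain ⟨f, u, h1, h2⟩ := geometric_hahn_banach_closed_point
    (convex_convexHull ℝ (X T : Set E)) hc hcon
  obtain ⟨t, ht, h3⟩ := h E T hE hT f
  have h4 := h1 t (subset_convexHull ℝ _ (Finset.mem_coe.2 ht))
  have h5 : f x ≤ ‖f‖ := by
    calc f x ≤ ‖f x‖ := le_abs_self _
      _ ≤ ‖f‖ * ‖x‖ := f.le_opNorm x
      _ ≤ ‖f‖ * 1 := mul_le_mul_of_nonneg_left hx (norm_nonneg _)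
      _ = ‖f‖ := mul_one _
  linarith

end MP50d2fe
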