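import Pool.Agent.Lib.MP_50d2fe_co.Spec

/-!
# EDGE: an exposed edge of the unit ball has length exactly 2
-/

set_option autoImplicit false

namespace MP50d2fe

namespace Edge

/-- LINE, with `-1 ∈ A` -/
theorem line_aux (A C : ℝ → Prop) (hA : ∀ x, A x → -1 ≤ x ∧ x ≤ 1)
    (hC : ∀ x, C x → -1 ≤ x ∧ x ≤ 1)
    (gA : ∀ x y, A x → A y → x < y → 1 < y - x)
    (gC : ∀ x y, C x → C y → x < y → 1 < y - x)
    (h1 : ∀ ξ : ℝ, -3 / 2 ≤ ξ → ξ ≤ 3 / 2 → ∃ x, (A x ∨ C x) ∧ |ξ - x| ≤ 1 / 2)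
    (h2 : ∀ ζ : ℝ, -1 / 2 ≤ ζ → ζ ≤ 1 / 2 → ∀ c c', C c → C c' → c < c' →
      ∃ a, A a ∧ (|ζ + c - a| ≤ 1 / 2 ∨ |ζ + c' - a| ≤ 1 / 2))
    (h3 : ∀ ζ : ℝ, -1 / 2 ≤ ζ → ζ ≤ 1 / 2 → ∀ a a', A a → A a' → a < a' →
      ∃ c, C c ∧ (|ζ + a - c| ≤ 1 / 2 ∨ |ζ + a' - c| ≤ 1 / 2))
    (hm : A (-1)) : False := by
  -- elements of `A` are `-1` or positive
  have hA' : ∀ x, A x → x = -1 ∨ 0 < x := by
    intro x hx
    rcases eq_or_lt_of_le (hA x hx).1 with h | h
    · exact Or.inl h.symm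
    · right
      have := gA _ _ hm hx h
      linarith
  -- two positive elements of `A` coincide
  have hAA : ∀ x y, A x → A y → 0 < x → 0 < y → x = y := by
    intro x y hx hy h0 h0'
    rcases lt_trichotomy x y with h | h | h
    · have := gA _ _ hx hy h
      have := (hA y hy).2
      linarith
    · exact h
    · have := gA _ _ hy hx h
      have := (hA x hx).2
      linarith
  have hCp : ∀ x y, C x → C y → 0 ≤ x → 0 ≤ y → x = y := by
    intro x y hx hy h0 h0'
    rcases lt_trichotomy x y with h | h | h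
    · have := gC _ _ hx hy h
      have := (hC y hy).2
      linarith
    · exact h
    · have := gC _ _ hy hx h
      have := (hC x hx).2
      linarith
  have hCn : ∀ x y, C x → C y → x ≤ 0 → y ≤ 0 → x = y := by
    intro x y hx hy h0 h0'
    rcases lt_trichotomy x y with h | h | h
    · have := gC _ _ hx hy h
      have := (hC x hx).1
      linarith
    · exact h
    · have := gC _ _ hy hx h
      have := (hC y hy).1
      linarith
  by_cases hp : A 1
  · -- `A = {-1, 1}`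
    have hAeq : ∀ x, A x → x = -1 ∨ x = 1 := by
      intro x hx
      rcases hA' x hx with h | h
      · exact Or.inl h
      · exact Or.inr (hAA x 1 hx hp h one_pos)
    by_cases hn : ∃ c, C c ∧ c < 0
    · obtain ⟨c, hc, hc0⟩ := hn
      by_cases hq : ∃ c', C c' ∧ 0 < c'
      · obtain ⟨c', hc', hc0'⟩ := hq
        have g := gC _ _ hc hc' (by linarith)
        have b1 := hC _ hc
        have b2 := hC _ hc'
        obtain ⟨x, hx, hd⟩ := h1 ((c + c') / 2) (by linarith) (by linarith)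
        rw [abs_le] at hd
        rcases hx with hx | hx
        · rcases hAeq x hx with rfl | rfl <;> linarith [hd.1, hd.2]
        · rcases le_total x 0 with h0 | h0
          · have := hCn x c hx hc h0 hc0.le
            subst this
            linarith [hd.1, hd.2]
          · have := hCp x c' hx hc' h0 hc0'.le
            subst this
            linarith [hd.1, hd.2]
      · push Not at hq
        have b1 := hC _ hc
        obtain ⟨x, hx, hd⟩ := h1 (1 / 2 + c / 2) (by linarith) (by linarith)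
        rw [abs_le] at hd
        rcases hx with hx | hx
        · rcases hAeq x hx with rfl | rfl <;> linarith [hd.1, hd.2]
        · have := hCn x c hx hc (hq x hx) hc0.le
          subst this
          linarith [hd.1, hd.2]
    · push Not at hn
      by_cases hq : ∃ c', C c' ∧ 0 < c'
      · obtain ⟨c', hc', hc0'⟩ := hq
        have b2 := hC _ hc'
        obtain ⟨x, hx, hd⟩ := h1 (-1 / 2 + c' / 2) (by linarith) (by linarith)
        rw [abs_le] at hd
        rcases hx with hx | hx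
        · rcases hAeq x hx with rfl | rfl <;> linarith [hd.1, hd.2]
        · have := hCp x c' hx hc' (hn x hx) hc0'.le
          subst this
          linarith [hd.1, hd.2]
      · push Not at hq
        obtain ⟨c, hc, hd⟩ := h3 0 (by norm_num) (by norm_num) (-1) 1 hm hp (by norm_num)
        have h0 : c = 0 := le_antisymm (hq c hc) (hn c hc)
        subst h0
        norm_num at hd
  · -- `1 ∈ C`
    have hC1 : C 1 := by
      obtain ⟨x, hx, hd⟩ := h1 (3 / 2) (by norm_num) (by norm_num)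
      rw [abs_le] at hd
      rcases hx with hx | hx
      · exfalso
        have hx1 : x = 1 := le_antisymm (hA x hx).2 (by linarith [hd.1, hd.2])
        subst hx1
        exact hp hx
      · have hx1 : x = 1 := le_antisymm (hC x hx).2 (by linarith [hd.1, hd.2])
        subst hx1
        exact hx
    have hCeq : ∀ x, C x → x = 1 ∨ x < 0 := by
      intro x hx
      rcases lt_or_ge x 0 with h | h
      · exact Or.inr h
      · exact Or.inl (hCp x 1 hx hC1 h zero_le_one)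
    by_cases hq : ∃ a, A a ∧ 0 < a
    · obtain ⟨a, ha, ha0⟩ := hq
      have ha1 : a < 1 := by
        rcases eq_or_lt_of_le (hA a ha).2 with h | h
        · subst h; exact absurd ha hp
        · exact h
      have hAeq : ∀ x, A x → x = -1 ∨ x = a := by
        intro x hx
        rcases hA' x hx with h | h
        · exact Or.inl h
        · exact Or.inr (hAA x a hx ha h ha0)
      by_cases hn : ∃ c, C c ∧ c < 0
      · obtain ⟨c, hc, hc0⟩ := hn
        have b1 := hC _ hc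
        have hCeq' : ∀ x, C x → x = 1 ∨ x = c := by
          intro x hx
          rcases hCeq x hx with h | h
          · exact Or.inl h
          · exact Or.inr (hCn x c hx hc h.le hc0.le)
        by_cases hca : c < a - 1
        · obtain ⟨x, hx, hd⟩ := h1 ((a + c) / 2) (by linarith) (by linarith)
          rw [abs_le] at hd
          rcases hx with hx | hx
          · rcases hAeq x hx with rfl | rfl <;> linarith [hd.1, hd.2]
          · rcases hCeq' x hx with rfl | rfl <;> linarith [hd.1, hd.2]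
        · push Not at hca
          have hlt : max (-1 / 2 - c) (a - 1 / 2) < min (a - 1 / 2 - c) (1 / 2) := by
            rw [max_lt_iff, lt_min_iff, lt_min_iff]
            refine ⟨⟨by linarith, by linarith⟩, ⟨by linarith, by linarith⟩⟩
          obtain ⟨ζ, hζ1, hζ2⟩ := exists_between hlt
          rw [max_lt_iff] at hζ1
          rw [lt_min_iff] at hζ2
          obtain ⟨b, hb, hd⟩ := h2 ζ (by linarith [hζ1.2]) hζ2.2.le c 1 hc hC1 (by linarith)
          rw [abs_le, abs_le] at hd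
          rcases hAeq b hb with rfl | rfl <;> rcases hd with hd | hd <;>
            linarith [hd.1, hd.2, hζ1.1, hζ1.2, hζ2.1, hζ2.2]
      · push Not at hn
        obtain ⟨x, hx, hd⟩ := h1 (-1 / 2 + a / 2) (by linarith) (by linarith)
        rw [abs_le] at hd
        rcases hx with hx | hx
        · rcases hAeq x hx with rfl | rfl <;> linarith [hd.1, hd.2]
        · rcases hCeq x hx with rfl | h
          · linarith [hd.1, hd.2]
          · linarith [hn x hx]
    · push Not at hq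
      have hAeq : ∀ x, A x → x = -1 := by
        intro x hx
        rcases hA' x hx with h | h
        · exact h
        · linarith [hq x hx]
      by_cases hn : ∃ c, C c ∧ c < 0
      · obtain ⟨c, hc, hc0⟩ := hn
        have b1 := hC _ hc
        obtain ⟨x, hx, hd⟩ := h1 ((c + 1) / 2) (by linarith) (by linarith)
        rw [abs_le] at hd
        rcases hx with hx | hx
        · have := hAeq x hx
          subst this
          linarith [hd.1, hd.2]
        · rcases hCeq x hx with rfl | h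
          · linarith [hd.1, hd.2]
          · have := hCn x c hx hc h.le hc0.le
            subst this
            linarith [hd.1, hd.2]
      · push Not at hn
        obtain ⟨x, hx, hd⟩ := h1 0 (by norm_num) (by norm_num)
        rw [abs_le] at hd
        rcases hx with hx | hx
        · have := hAeq x hx
          subst this
          linarith [hd.1, hd.2]
        · rcases hCeq x hx with rfl | h
          · linarith [hd.1, hd.2]
          · linarith [hn x hx]

/-- LINE -/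
theorem line (A C : ℝ → Prop) (hA : ∀ x, A x → -1 ≤ x ∧ x ≤ 1)
    (hC : ∀ x, C x → -1 ≤ x ∧ x ≤ 1)
    (gA : ∀ x y, A x → A y → x < y → 1 < y - x)
    (gC : ∀ x y, C x → C y → x < y → 1 < y - x)
    (h1 : ∀ ξ : ℝ, -3 / 2 ≤ ξ → ξ ≤ 3 / 2 → ∃ x, (A x ∨ C x) ∧ |ξ - x| ≤ 1 / 2)
    (h2 : ∀ ζ : ℝ, -1 / 2 ≤ ζ → ζ ≤ 1 / 2 → ∀ c c', C c → C c' → c < c' →
      ∃ a, A a ∧ (|ζ + c - a| ≤ 1 / 2 ∨ |ζ + c' - a| ≤ 1 / 2))
    (h3 : ∀ ζ : ℝ, -1 / 2 ≤ ζ → ζ ≤ 1 / 2 → ∀ a a', A a → A a' → a < a' →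
      ∃ c, C c ∧ (|ζ + a - c| ≤ 1 / 2 ∨ |ζ + a' - c| ≤ 1 / 2)) : False := by
  obtain ⟨x, hx, hd⟩ := h1 (-3 / 2) (by norm_num) (by norm_num)
  rw [abs_le] at hd
  rcases hx with hx | hx
  · have hx1 : x = -1 := le_antisymm (by linarith [hd.1, hd.2]) (hA x hx).1
    subst hx1
    exact line_aux A C hA hC gA gC h1 h2 h3 hx
  · have hx1 : x = -1 := le_antisymm (by linarith [hd.1, hd.2]) (hC x hx).1
    subst hx1
    refine line_aux C A hC hA gC gA (fun ξ a b => ?_) h3 h2 hx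
    obtain ⟨y, hy, hd⟩ := h1 ξ a b
    exact ⟨y, hy.symm, hd⟩

variable {E : Type} [NormedAddCommGroup E] [NormedSpace ℝ E]

/-- the parametrisation of the line through `v` and `w` -/
noncomputable def P (v w : E) (x : ℝ) : E := ((1 - x) / 2) • v + ((1 + x) / 2) • w

/-- the points at distance `3/2` -/
noncomputable def Q (v w : E) (x : ℝ) : E := ((3 - 2 * x) / 4) • v + ((3 + 2 * x) / 4) • w

theorem P_sub (v w : E) (x y : ℝ) : P v w x - P v w y = ((x - y) / 2) • (w - v) := by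
  unfold P
  module

theorem two_smul_Q_sub (v w : E) (ξ x : ℝ) :
    (2 : ℝ) • (Q v w ξ - P v w x) = P v w (2 * (ξ - x)) := by
  unfold P Q
  module

theorem half_P_add (v w : E) (ζ c : ℝ) :
    (1 / 2 : ℝ) • P v w (2 * ζ) + P v w c = Q v w (ζ + c) := by
  unfold P Q
  module

theorem P_inj {v w : E} (hvw : v ≠ w) {x y : ℝ} (h : P v w x = P v w y) : x = y := by
  have h1 := P_sub v w x y
  rw [h, sub_self] at h1
  rcases smul_eq_zero.1 h1.symm with h2 | h2
  · linarith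
  · exact absurd (sub_eq_zero.1 h2).symm hvw

theorem exists_P {v w x : E} (h : x ∈ segment ℝ v w) :
    ∃ s : ℝ, (-1 ≤ s ∧ s ≤ 1) ∧ x = P v w s := by
  obtain ⟨a, b, ha, hb, hab, rfl⟩ := h
  refine ⟨b - a, ⟨by linarith, by linarith⟩, ?_⟩
  unfold P
  have e1 : (1 - (b - a)) / 2 = a := by linarith
  have e2 : (1 + (b - a)) / 2 = b := by linarith
  rw [e1, e2]

theorem norm_P_le {v w : E} (hv : ‖v‖ ≤ 1) (hw : ‖w‖ ≤ 1) {x : ℝ} (h1 : -1 ≤ x) (h2 : x ≤ 1) :
    ‖P v w x‖ ≤ 1 := by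
  unfold P
  refine (norm_add_le _ _).trans ?_
  rw [norm_smul, norm_smul, Real.norm_of_nonneg (by linarith), Real.norm_of_nonneg (by linarith)]
  have a1 : (1 - x) / 2 * ‖v‖ ≤ (1 - x) / 2 * 1 := mul_le_mul_of_nonneg_left hv (by linarith)
  have a2 : (1 + x) / 2 * ‖w‖ ≤ (1 + x) / 2 * 1 := mul_le_mul_of_nonneg_left hw (by linarith)
  linarith

theorem norm_Q_le {v w : E} (hv : ‖v‖ ≤ 1) (hw : ‖w‖ ≤ 1) {x : ℝ} (h1 : -3 / 2 ≤ x)
    (h2 : x ≤ 3 / 2) : ‖Q v w x‖ ≤ 3 / 2 := by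
  unfold Q
  refine (norm_add_le _ _).trans ?_
  rw [norm_smul, norm_smul, Real.norm_of_nonneg (by linarith), Real.norm_of_nonneg (by linarith)]
  have a1 : (3 - 2 * x) / 4 * ‖v‖ ≤ (3 - 2 * x) / 4 * 1 :=
    mul_le_mul_of_nonneg_left hv (by linarith)
  have a2 : (3 + 2 * x) / 4 * ‖w‖ ≤ (3 + 2 * x) / 4 * 1 :=
    mul_le_mul_of_nonneg_left hw (by linarith)
  linarith

theorem f_Q (f : E →L[ℝ] ℝ) {v w : E} (hv : f v = 1) (hw : f w = 1) (x : ℝ) :
    f (Q v w x) = 3 / 2 := by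
  unfold Q
  rw [map_add, map_smul, map_smul, hv, hw]
  simp only [smul_eq_mul]
  ring

theorem apply_le {f : E →L[ℝ] ℝ} (hf : ‖f‖ ≤ 1) (x : E) : f x ≤ ‖x‖ := by
  have h1 := (le_abs_self (f x)).trans (f.le_opNorm x)
  have h2 : ‖f‖ * ‖x‖ ≤ 1 * ‖x‖ := mul_le_mul_of_nonneg_right hf (norm_nonneg _)
  linarith

/-- the basic fact -/
theorem fact {f : E →L[ℝ] ℝ} (hf : ‖f‖ ≤ 1) {v w : E} (hvw : v ≠ w) (hv : f v = 1)
    (hw : f w = 1) (hseg : ∀ x : E, ‖x‖ ≤ 1 → f x = 1 → x ∈ segment ℝ v w)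
    {ξ : ℝ} {t : E} (ht : ‖t‖ ≤ 1) (hd : ‖Q v w ξ - t‖ ≤ 1 / 2) :
    ∃ x, (-1 ≤ x ∧ x ≤ 1) ∧ t = P v w x ∧ |ξ - x| ≤ 1 / 2 := by
  have h1 : f (Q v w ξ) - f t ≤ 1 / 2 := by
    rw [← map_sub]
    exact (apply_le hf _).trans hd
  rw [f_Q f hv hw] at h1
  have h2 : f t ≤ 1 := (apply_le hf t).trans ht
  have h3 : f t = 1 := by linarith
  obtain ⟨x, hx, rfl⟩ := exists_P (hseg t ht h3)
  refine ⟨x, hx, rfl, ?_⟩
  have h4 : ‖(2 : ℝ) • (Q v w ξ - P v w x)‖ ≤ 1 := by
    rw [norm_smul, Real.norm_of_nonneg (by norm_num)]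
    linarith
  have h5 : f ((2 : ℝ) • (Q v w ξ - P v w x)) = 1 := by
    rw [map_smul, map_sub, f_Q f hv hw, h3]
    norm_num
  obtain ⟨y, hy, hy'⟩ := exists_P (hseg _ h4 h5)
  rw [two_smul_Q_sub] at hy'
  have h6 := P_inj hvw hy'
  rw [abs_le]
  constructor <;> linarith [hy.1, hy.2]

end Edge

open Edge in
/-- EDGE -/
theorem specEdge (hA : SpecCoverA) (hB : SpecCoverB) : SpecEdge := by
  intro E _ _ T hdim hT f hf v w hvw hv hw fv fw hseg
  by_contra hne
  have hle : ‖v - w‖ ≤ 2 := (norm_sub_le v w).trans (by linarith)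
  have hlt : ‖v - w‖ < 2 := lt_of_le_of_ne hle hne
  have hpos : 0 < ‖v - w‖ := norm_pos_iff.2 (sub_ne_zero.2 hvw)
  have hgap : ∀ x y : ℝ, x < y → 1 ≤ ‖P v w y - P v w x‖ → 1 < y - x := by
    intro x y hxy h
    rw [P_sub, norm_smul, Real.norm_of_nonneg (by linarith), norm_sub_rev] at h
    by_contra hcon
    push Not at hcon
    have : (y - x) / 2 * ‖v - w‖ ≤ 1 / 2 * ‖v - w‖ :=
      mul_le_mul_of_nonneg_right (by linarith) hpos.le
    linarith
  refine line (fun x => (-1 ≤ x ∧ x ≤ 1) ∧ P v w x ∈ T)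
    (fun x => (-1 ≤ x ∧ x ≤ 1) ∧ -P v w x ∈ T) (fun x h => h.1) (fun x h => h.1)
    ?_ ?_ ?_ ?_ ?_
  · rintro x y ⟨-, hx⟩ ⟨-, hy⟩ hxy
    refine hgap x y hxy (hT.sep _ hy _ hx fun h => ?_)
    exact hxy.ne' (P_inj hvw h)
  · rintro x y ⟨-, hx⟩ ⟨-, hy⟩ hxy
    refine hgap x y hxy ?_
    have := hT.sep _ hy _ hx fun h => hxy.ne' (P_inj hvw (neg_injective h))
    rwa [neg_sub_neg, norm_sub_rev] at this
  · intro ξ h1 h2
    rcases hA E T hdim hT (Q v w ξ) (norm_Q_le hv hw h1 h2) with h | ⟨t, ht, hd⟩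
    · exfalso
      have := (apply_le hf (Q v w ξ)).trans h
      rw [f_Q f fv fw] at this
      linarith
    · obtain ⟨x, hx, rfl, hd'⟩ := fact hf hvw fv fw hseg (hT.normX ht).le hd
      rw [mem_X] at ht
      rcases ht with ht | ht
      · exact ⟨x, Or.inl ⟨hx, ht⟩, hd'⟩
      · exact ⟨x, Or.inr ⟨hx, ht⟩, hd'⟩
  · rintro ζ h1 h2 c c' ⟨-, hc⟩ ⟨-, hc'⟩ hcc
    have hz : ‖(1 / 2 : ℝ) • P v w (2 * ζ)‖ ≤ 1 / 2 := by
      rw [norm_smul, Real.norm_of_nonneg (by norm_num)]
      have := norm_P_le hv hw (x := 2 * ζ) (by linarith) (by linarith)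
      linarith
    obtain ⟨s, hs, hd⟩ := hB E T hdim hT _ hz _ hc _ hc'
      (fun h => hcc.ne (P_inj hvw (neg_injective h)))
    rw [sub_neg_eq_add, sub_neg_eq_add, half_P_add, half_P_add] at hd
    rcases hd with hd | hd
    · obtain ⟨a, ha, rfl, hd'⟩ := fact hf hvw fv fw hseg (hT.norm s hs).le hd
      exact ⟨a, ⟨ha, hs⟩, Or.inl hd'⟩
    · obtain ⟨a, ha, rfl, hd'⟩ := fact hf hvw fv fw hseg (hT.norm s hs).le hd
      exact ⟨a, ⟨ha, hs⟩, Or.inr hd'⟩
  · rintro ζ h1 h2 c c' ⟨-, hc⟩ ⟨-, hc'⟩ hcc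
    have hz : ‖-((1 / 2 : ℝ) • P v w (2 * ζ))‖ ≤ 1 / 2 := by
      rw [norm_neg, norm_smul, Real.norm_of_nonneg (by norm_num)]
      have := norm_P_le hv hw (x := 2 * ζ) (by linarith) (by linarith)
      linarith
    obtain ⟨s, hs, hd⟩ := hB E T hdim hT _ hz _ hc _ hc'
      (fun h => hcc.ne (P_inj hvw h))
    have e : ∀ c : ℝ, ‖-((1 / 2 : ℝ) • P v w (2 * ζ)) - P v w c - s‖ =
        ‖Q v w (ζ + c) - (-s)‖ := by
      intro c
      rw [← half_P_add, ← norm_neg]
      congr 1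
      abel
    rw [e, e] at hd
    have hs1 : ‖-s‖ ≤ 1 := by rw [norm_neg]; exact (hT.norm s hs).le
    rcases hd with hd | hd
    · obtain ⟨a, ha, ha', hd'⟩ := fact hf hvw fv fw hseg hs1 hd
      exact ⟨a, ⟨ha, by rw [← ha', neg_neg]; exact hs⟩, Or.inl hd'⟩
    · obtain ⟨a, ha, ha', hd'⟩ := fact hf hvw fv fw hseg hs1 hd
      exact ⟨a, ⟨ha, by rw [← ha', neg_neg]; exact hs⟩, Or.inr hd'⟩

end MP50d2fe
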