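import Pool.Agent.Lib.MP_50d2fe_co.Spec

/-!
# FACET and EXPO
-/

set_option autoImplicit false

open Filter Topology

namespace MP50d2fe

namespace Facet

theorem norm_le_of_X (hD : SpecDual) {E : Type} [NormedAddCommGroup E] [NormedSpace ℝ E]
    {T : Finset E} (hE : Module.finrank ℝ E = 3) (hT : Conf T) {f : E →L[ℝ] ℝ}
    (h : ∀ t ∈ X T, f t ≤ 1) : ‖f‖ ≤ 1 := by
  obtain ⟨t, ht, h1⟩ := hD E T hE hT f
  rw [← h1]
  exact h t ht

/-- room for a small perturbation at finitely many points -/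
theorem room {E : Type} (S : Finset E) (a b : E → ℝ) (h : ∀ t ∈ S, a t < 1) :
    ∃ ε : ℝ, 0 < ε ∧ ∀ t ∈ S, a t + ε * b t < 1 ∧ a t - ε * b t < 1 := by
  have h1 : ∀ t ∈ S, ∀ᶠ ε in 𝓝[>] (0 : ℝ), a t + ε * b t < 1 ∧ a t - ε * b t < 1 := by
    intro t ht
    have c1 : Tendsto (fun ε : ℝ => a t + ε * b t) (𝓝 0) (𝓝 (a t + 0 * b t)) :=
      Continuous.tendsto (by fun_prop) 0
    have c2 : Tendsto (fun ε : ℝ => a t - ε * b t) (𝓝 0) (𝓝 (a t - 0 * b t)) :=
      Continuous.tendsto (by fun_prop) 0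
    rw [zero_mul, add_zero] at c1
    rw [zero_mul, sub_zero] at c2
    have e1 := c1.eventually (gt_mem_nhds (h t ht))
    have e2 := c2.eventually (gt_mem_nhds (h t ht))
    exact (e1.and e2).filter_mono nhdsWithin_le_nhds
  have h2 : ∀ᶠ ε in 𝓝[>] (0 : ℝ), ∀ t ∈ S, a t + ε * b t < 1 ∧ a t - ε * b t < 1 :=
    (Filter.eventually_all_finset S).2 h1
  have h3 : ∀ᶠ ε in 𝓝[>] (0 : ℝ), 0 < ε := eventually_mem_nhdsWithin
  obtain ⟨ε, h4, h5⟩ := (h3.and h2).exists
  exact ⟨ε, h4, h5⟩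

theorem le_one_of_norm {E : Type} [NormedAddCommGroup E] [NormedSpace ℝ E] {f : E →L[ℝ] ℝ}
    (hf : ‖f‖ ≤ 1) {x : E} (hx : ‖x‖ ≤ 1) : f x ≤ 1 := by
  calc f x ≤ ‖f x‖ := le_abs_self _
    _ ≤ ‖f‖ * ‖x‖ := f.le_opNorm x
    _ ≤ 1 * 1 := mul_le_mul hf hx (norm_nonneg _) zero_le_one
    _ = 1 := mul_one _

end Facet

open Facet in
theorem specFacet (hD : SpecDual) : SpecFacet := by
  intro E _ _ T hE hT
  have : FiniteDimensional ℝ E := Module.finite_of_finrank_pos (by omega)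
  have : ProperSpace (E →L[ℝ] ℝ) := FiniteDimensional.proper ℝ _
  obtain ⟨f, hf⟩ := (isCompact_closedBall (0 : E →L[ℝ] ℝ) 1).extremePoints_nonempty
    ⟨0, Metric.mem_closedBall_self zero_le_one⟩
  rw [mem_extremePoints] at hf
  obtain ⟨hf1, hf2⟩ := hf
  rw [mem_closedBall_zero_iff] at hf1
  refine ⟨f, hf1, ?_⟩
  by_contra hne
  obtain ⟨g, hg0, hg⟩ := Submodule.exists_le_ker_of_lt_top _ (lt_top_iff_ne_top.2 hne)
  classical
  have hle : ∀ t ∈ X T, f t ≤ 1 := fun t ht => le_one_of_norm hf1 (hT.normX ht).le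
  obtain ⟨ε, hε, hr⟩ := room ((X T).filter fun t => f t < 1) (fun t => f t) (fun t => g t)
    (fun t ht => (Finset.mem_filter.1 ht).2)
  let g' : E →L[ℝ] ℝ := LinearMap.toContinuousLinearMap g
  have hg' : ∀ x, g' x = g x := fun x => rfl
  have key : ∀ t ∈ X T, (f + ε • g') t ≤ 1 ∧ (f - ε • g') t ≤ 1 := by
    intro t ht
    have e1 : (f + ε • g') t = f t + ε * g t := rfl
    have e2 : (f - ε • g') t = f t - ε * g t := rfl
    rw [e1, e2]
    rcases lt_or_eq_of_le (hle t ht) with h1 | h1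
    · have h2 := hr t (Finset.mem_filter.2 ⟨ht, h1⟩)
      exact ⟨h2.1.le, h2.2.le⟩
    · have h2 : g t = 0 := hg (Submodule.subset_span ⟨ht, h1⟩)
      rw [h2, mul_zero, add_zero, sub_zero]
      exact ⟨h1.le, h1.le⟩
  have n1 : f + ε • g' ∈ Metric.closedBall (0 : E →L[ℝ] ℝ) 1 :=
    mem_closedBall_zero_iff.2 (norm_le_of_X hD hE hT fun t ht => (key t ht).1)
  have n2 : f - ε • g' ∈ Metric.closedBall (0 : E →L[ℝ] ℝ) 1 :=
    mem_closedBall_zero_iff.2 (norm_le_of_X hD hE hT fun t ht => (key t ht).2)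
  have hseg : f ∈ openSegment ℝ (f + ε • g') (f - ε • g') := by
    refine ⟨1 / 2, 1 / 2, by norm_num, by norm_num, by norm_num, ?_⟩
    rw [← smul_add]
    have h3 : f + ε • g' + (f - ε • g') = (2 : ℝ) • f := by rw [two_smul]; abel
    rw [h3, smul_smul]
    norm_num
  have h4 := hf2 _ n1 _ n2 hseg
  have h5 : f + ε • g' = f := h4.1
  have h6 : ε • g' = 0 := by simpa using h5
  have h7 : g' = 0 := by
    rcases smul_eq_zero.1 h6 with h8 | h8
    · exact absurd h8 hε.ne'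
    · exact h8
  apply hg0
  ext x
  rw [← hg' x, h7]
  rfl

open Facet in
theorem specExpo (h : SpecHull) (hD : SpecDual) : SpecExpo := by
  intro E _ _ T hE hT f₀ hf₀ y hy
  classical
  have hle : ∀ t ∈ X T, f₀ t ≤ 1 := fun t ht => le_one_of_norm hf₀ (hT.normX ht).le
  obtain ⟨ε, hε, hr⟩ := room ((X T).filter fun t => f₀ t < 1) (fun t => f₀ t) (fun t => y t)
    (fun t ht => (Finset.mem_filter.1 ht).2)
  have e2 : ∀ x, (f₀ - ε • y) x = f₀ x - ε * y x := fun x => rfl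
  have key : ∀ t ∈ X T, (f₀ - ε • y) t ≤ 1 := by
    intro t ht
    rw [e2]
    rcases lt_or_eq_of_le (hle t ht) with h1 | h1
    · exact (hr t (Finset.mem_filter.2 ⟨ht, h1⟩)).2.le
    · have h2 := mul_nonneg hε.le (hy t ht h1)
      linarith
  have key2 : ∀ t ∈ X T, (f₀ - ε • y) t = 1 → f₀ t = 1 ∧ y t = 0 := by
    intro t ht h1
    rw [e2] at h1
    rcases lt_or_eq_of_le (hle t ht) with h2 | h2
    · have h3 := (hr t (Finset.mem_filter.2 ⟨ht, h2⟩)).2
      exact absurd h1 h3.ne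
    · refine ⟨h2, ?_⟩
      have h3 : ε * y t = 0 := by linarith
      rcases mul_eq_zero.1 h3 with h4 | h4
      · exact absurd h4 hε.ne'
      · exact h4
  refine ⟨f₀ - ε • y, norm_le_of_X hD hE hT key, ?_⟩
  intro x hx
  constructor
  · intro h1
    have h2 := h E T hE hT x hx
    rw [Finset.mem_convexHull'] at h2
    obtain ⟨w, hw0, hw1, hwx⟩ := h2
    have h3 : ∑ t ∈ X T, w t * (1 - (f₀ - ε • y) t) = 0 := by
      have h4 : ∑ t ∈ X T, w t * (1 - (f₀ - ε • y) t) =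
          ∑ t ∈ X T, w t - (f₀ - ε • y) (∑ t ∈ X T, w t • t) := by
        rw [map_sum, ← Finset.sum_sub_distrib]
        refine Finset.sum_congr rfl ?_
        intro t _
        rw [map_smul, smul_eq_mul]
        ring
      rw [h4, hwx, h1, hw1, sub_self]
    have h5 : ∀ t ∈ X T, w t * (1 - (f₀ - ε • y) t) = 0 := by
      refine (Finset.sum_eq_zero_iff_of_nonneg ?_).1 h3
      intro t ht
      exact mul_nonneg (hw0 t ht) (by have := key t ht; linarith)
    have h6 : ∀ t ∈ X T, w t = 0 ∨ (f₀ t = 1 ∧ y t = 0) := by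
      intro t ht
      rcases mul_eq_zero.1 (h5 t ht) with h7 | h7
      · exact Or.inl h7
      · exact Or.inr (key2 t ht (by linarith))
    constructor
    · rw [← hwx, map_sum, ← hw1]
      refine Finset.sum_congr rfl ?_
      intro t ht
      rw [map_smul, smul_eq_mul]
      rcases h6 t ht with h7 | h7
      · rw [h7, zero_mul]
      · rw [h7.1, mul_one]
    · rw [← hwx, map_sum]
      refine Finset.sum_eq_zero ?_
      intro t ht
      rw [map_smul, smul_eq_mul]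
      rcases h6 t ht with h7 | h7
      · rw [h7, zero_mul]
      · rw [h7.2, mul_zero]
  · rintro ⟨h1, h2⟩
    rw [e2, h1, h2, mul_zero, sub_zero]

end MP50d2fe
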