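import Pool.Agent.Lib.MP_50d2fe_co.Spec

/-!
FINAL: from NORM, BODY and DIFF to the frozen statement S08733.
-/

set_option autoImplicit false

open MeasureTheory Pointwise

namespace MP50d2fe

theorem final (hN : SpecNorm) (hB : SpecBody) (hD : SpecDiff) :
    ∀ K : Set (EuclideanSpace ℝ (Fin 3)), IsCompact K → Convex ℝ K → (interior K).Nonempty →
      ∀ v : Fin 25 → EuclideanSpace ℝ (Fin 3),
        (∀ i, ((fun x => x + v i) '' K ∩ K).Nonempty) →
        (∀ i, Disjoint (interior ((fun x => x + v i) '' K)) (interior K)) →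
        (∀ i j, i ≠ j →
          Disjoint (interior ((fun x => x + v i) '' K)) (interior ((fun x => x + v j) '' K))) →
        ∃ p : EuclideanSpace ℝ (Fin 3), ∃ u : Fin 3 → EuclideanSpace ℝ (Fin 3),
          LinearIndependent ℝ u ∧
          K = {x | ∃ t : Fin 3 → ℝ, (∀ k, t k ∈ Set.Icc (0:ℝ) 1) ∧ x = p + ∑ k, t k • u k} := by
  intro K hcomp hconv hint v htouch hdisj hdisj2
  set D : Set (EuclideanSpace ℝ (Fin 3)) := {x | ∃ a ∈ K, ∃ b ∈ K, x = a - b} with hDdef
  have hDsub : D = K - K := by
    ext x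
    constructor
    · rintro ⟨a, ha, b, hb, rfl⟩
      exact Set.sub_mem_sub ha hb
    · rintro ⟨a, ha, b, hb, rfl⟩
      exact ⟨a, ha, b, hb, rfl⟩
  have hDcomp : IsCompact D := by
    rw [hDsub, sub_eq_add_neg]; exact hcomp.add hcomp.neg
  have hDconv : Convex ℝ D := by rw [hDsub]; exact hconv.sub hconv
  have hKne : K.Nonempty := hint.mono interior_subset
  have hDint : (interior D).Nonempty := by
    obtain ⟨a, ha⟩ := hint
    obtain ⟨b, hb⟩ := hKne
    have hsub : (fun x => x - b) '' (interior K) ⊆ D := by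
      rintro _ ⟨x, hx, rfl⟩
      exact ⟨x, interior_subset hx, b, hb, rfl⟩
    have hopen : IsOpen ((fun x => x - b) '' (interior K)) := by
      have := (Homeomorph.subRight b).isOpenMap _ (isOpen_interior (s := K))
      exact this
    exact ⟨a - b, interior_maximal hsub hopen ⟨a, ha, rfl⟩⟩
  have hDsymm : ∀ x ∈ D, -x ∈ D := by
    rintro x ⟨a, ha, b, hb, rfl⟩
    exact ⟨b, hb, a, ha, by abel⟩
  -- interior of a translate
  have htrans : ∀ w : EuclideanSpace ℝ (Fin 3), interior ((fun x => x + w) '' K)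
      = (fun x => x + w) '' interior K := by
    intro w
    have := (Homeomorph.addRight w).image_interior K
    exact this.symm
  have hmem : ∀ i, v i ∈ D := by
    intro i
    obtain ⟨z, ⟨a, ha, rfl⟩, hz⟩ := htouch i
    exact ⟨a + v i, hz, a, ha, by abel⟩
  have hnotint : ∀ i, v i ∉ interior D := by
    intro i hi
    obtain ⟨a, ha, b, hb, hab⟩ := hD K hconv hint (v i) hi
    refine Set.disjoint_left.mp (hdisj i) ?_ ha
    rw [htrans]
    exact ⟨b, hb, by simp only; rw [hab]; abel⟩
  have hsep : ∀ i j, i ≠ j → v i - v j ∉ interior D := by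
    intro i j hij hi
    obtain ⟨a, ha, b, hb, hab⟩ := hD K hconv hint (v i - v j) hi
    have h1 : b + v i ∈ interior ((fun x => x + v i) '' K) := by
      rw [htrans]
      exact ⟨b, hb, rfl⟩
    have h2 : b + v i ∈ interior ((fun x => x + v j) '' K) := by
      rw [htrans]
      refine ⟨a, ha, ?_⟩
      simp only
      have : a = b + (v i - v j) := by rw [hab]; abel
      rw [this]
      abel
    exact Set.disjoint_left.mp (hdisj2 i j hij) h1 h2
  obtain ⟨f, hfli, hf⟩ := hN D hDcomp hDconv hDint hDsymm v hmem hnotint hsep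
  exact hB K hcomp hconv hKne f hfli (fun x => hf x)

end MP50d2fe
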