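import Pool.Agent.Lib.MP_50d2fe_co.Spec

/-!
MP_50d2fe_co, module FIRST: a facet has an edge (gift wrapping).
-/

set_option autoImplicit false

namespace MP50d2fe

namespace First

variable {E : Type} [NormedAddCommGroup E] [NormedSpace ℝ E]

/-- three points of the spanning set and two functionals -/
theorem exists_frame (hE : Module.finrank ℝ E = 3) (S : Set E)
    (hS : Submodule.span ℝ S = ⊤) :
    ∃ b0 ∈ S, ∃ b1 ∈ S, ∃ b2 ∈ S, ∃ g k : E →L[ℝ] ℝ, g b0 = 0 ∧ g b1 = 1 ∧ g b2 = 0 ∧ k b0 = 0 ∧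
      k b2 = 1 := by
  have : Module.Finite ℝ E := Module.finite_of_finrank_pos (by omega)
  let B := Module.Basis.ofSpan (K := ℝ) (V := E) (s := S) hS.ge
  have hB : Set.range B ⊆ S := Module.Basis.ofSpan_subset hS.ge
  have := Module.Finite.finite_basis B
  let _ := Fintype.ofFinite ((linearIndepOn_empty ℝ (id : E → E)).extend (Set.empty_subset S))
  have hcard := Module.finrank_eq_card_basis B
  rw [hE] at hcard
  let e := (Fintype.equivFinOfCardEq hcard.symm)
  let b := B.reindex e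
  have hb : ∀ i, b i ∈ S := by
    intro i
    apply hB
    exact ⟨e.symm i, (B.reindex_apply e i).symm⟩
  refine ⟨b 0, hb 0, b 1, hb 1, b 2, hb 2, LinearMap.toContinuousLinearMap (b.coord 1),
    LinearMap.toContinuousLinearMap (b.coord 2), ?_, ?_, ?_, ?_, ?_⟩ <;>
  simp [Module.Basis.coord_apply]

end First

theorem specFirst : SpecFirst := by
  intro E _ _ Y hE f₀ hspan
  classical
  obtain ⟨b0, h0, b1, h1, b2, h2, g, k, g0, g1, g2, k0, k2⟩ := First.exists_frame hE _ hspan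
  obtain ⟨h0, e0⟩ := h0
  obtain ⟨h1, e1⟩ := h1
  obtain ⟨h2, e2⟩ := h2
  let F : Finset E := Y.filter (fun t => f₀ t = 1)
  have hF : ∀ t, t ∈ F ↔ t ∈ Y ∧ f₀ t = 1 := fun t => Finset.mem_filter
  have m0 : b0 ∈ F := (hF b0).2 ⟨h0, e0⟩
  have m1 : b1 ∈ F := (hF b1).2 ⟨h1, e1⟩
  have m2 : b2 ∈ F := (hF b2).2 ⟨h2, e2⟩
  obtain ⟨v, hv, hvmin⟩ := Finset.exists_min_image F g ⟨b0, m0⟩
  have hv' := (hF v).1 hv
  by_cases hex : ∃ w ∈ F, w ≠ v ∧ g w = g v
  · obtain ⟨w, hw, hwv, hgw⟩ := hex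
    have hw' := (hF w).1 hw
    let y : E →L[ℝ] ℝ := g - g v • f₀
    have hyy : ∀ t, y t = g t - g v * f₀ t := fun t => rfl
    have hnn : ∀ t ∈ F, 0 ≤ y t := by
      intro t ht
      rw [hyy, ((hF t).1 ht).2, mul_one]
      linarith [hvmin t ht]
    refine ⟨y, fun t ht ht1 => hnn t ((hF t).2 ⟨ht, ht1⟩), ?_, v, hv'.1, w, hw'.1, hwv.symm, hv'.2,
      hw'.2, ?_, ?_⟩
    · by_contra hcon
      push Not at hcon
      have p0 := hcon b0 h0 e0
      have p1 := hcon b1 h1 e1
      have q0 := hnn b0 m0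
      have q1 := hnn b1 m1
      rw [hyy, e0, g0] at p0 q0
      rw [hyy, e1, g1] at p1 q1
      linarith
    · rw [hyy, hv'.2]; ring
    · rw [hyy, hw'.2, hgw]; ring
  · push Not at hex
    have hpos : ∀ t ∈ F, t ≠ v → 0 < g t - g v := by
      intro t ht htv
      have := hvmin t ht
      have h3 := hex t ht htv
      have h4 : g v < g t := lt_of_le_of_ne this (Ne.symm h3)
      linarith
    have hb1v : b0 ≠ v ∨ b1 ≠ v := by
      by_contra hcon
      push Not at hcon
      have : b0 = b1 := hcon.1.trans hcon.2.symm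
      rw [this, g1] at g0
      exact one_ne_zero g0
    have hne : (F.erase v).Nonempty := by
      rcases hb1v with h | h
      · exact ⟨b0, Finset.mem_erase.2 ⟨h, m0⟩⟩
      · exact ⟨b1, Finset.mem_erase.2 ⟨h, m1⟩⟩
    obtain ⟨w, hw, hwmin⟩ := Finset.exists_min_image (F.erase v)
      (fun t => (k t - k v) / (g t - g v)) hne
    obtain ⟨hwv, hwF⟩ := Finset.mem_erase.1 hw
    have hw' := (hF w).1 hwF
    have hgw := hpos w hwF hwv
    let ρ : ℝ := (k w - k v) / (g w - g v)
    let y : E →L[ℝ] ℝ := (k - k v • f₀) - ρ • (g - g v • f₀)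
    have hyy : ∀ t, y t = (k t - k v * f₀ t) - ρ * (g t - g v * f₀ t) := fun t => rfl
    have hnn : ∀ t ∈ F, 0 ≤ y t := by
      intro t ht
      rw [hyy, ((hF t).1 ht).2, mul_one, mul_one]
      by_cases htv : t = v
      · subst htv
        simp
      · have h3 := hwmin t (Finset.mem_erase.2 ⟨htv, ht⟩)
        have h4 := hpos t ht htv
        have h5 : ρ * (g t - g v) ≤ k t - k v := by
          have h6 : ρ ≤ (k t - k v) / (g t - g v) := h3
          rwa [le_div_iff₀ h4] at h6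
        linarith
    refine ⟨y, fun t ht ht1 => hnn t ((hF t).2 ⟨ht, ht1⟩), ?_, v, hv'.1, w, hw'.1, hwv.symm, hv'.2,
      hw'.2, ?_, ?_⟩
    · by_contra hcon
      push Not at hcon
      have p0 := hcon b0 h0 e0
      have p2 := hcon b2 h2 e2
      have q0 := hnn b0 m0
      have q2 := hnn b2 m2
      rw [hyy, e0, g0, k0] at p0 q0
      rw [hyy, e2, g2, k2] at p2 q2
      linarith
    · rw [hyy, hv'.2]; ring
    · rw [hyy, hw'.2, mul_one, mul_one]
      have : ρ * (g w - g v) = k w - k v := div_mul_cancel₀ _ hgw.ne'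
      rw [this]; ring

end MP50d2fe
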