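import Pool.Agent.Lib.MP_50d2fe_co.Spec

/-!
# LAYER: a supporting plane which meets the ball in a two-dimensional face contains 8 points of `T`
-/

set_option autoImplicit false
set_option linter.unusedSectionVars false

open MeasureTheory Filter Topology
open scoped Pointwise ENNReal

namespace MP50d2fe

namespace Layer

variable {E : Type} [NormedAddCommGroup E] [NormedSpace ℝ E]

theorem apply_le {f : E →L[ℝ] ℝ} (hf : ‖f‖ ≤ 1) (x : E) : f x ≤ ‖x‖ := by
  have h1 := (le_abs_self (f x)).trans (f.le_opNorm x)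
  have h2 : ‖f‖ * ‖x‖ ≤ 1 * ‖x‖ := mul_le_mul_of_nonneg_right hf (norm_nonneg _)
  linarith

theorem neg_le_apply {f : E →L[ℝ] ℝ} (hf : ‖f‖ ≤ 1) (x : E) : -‖x‖ ≤ f x := by
  have := apply_le hf (-x)
  rw [map_neg, norm_neg] at this
  linarith

/-- the layer -/
def L (f : E →L[ℝ] ℝ) (d : ℝ) : Set E := {x | ‖x‖ ≤ 1 / 2 ∧ 1 / 2 - d ≤ f x}

theorem isClosed_L (f : E →L[ℝ] ℝ) (d : ℝ) : IsClosed (L f d) :=
  (isClosed_le continuous_norm continuous_const).inter
    (isClosed_le continuous_const f.continuous)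

theorem isClosed_R (T : Finset E) (t : E) : IsClosed (R T t) := by
  have : R T t = {z | ‖z‖ ≤ 1 / 2} ∩ ⋂ s ∈ T, {z | 1 / 2 ≤ ‖z - t - s‖} := by
    ext z
    simp [R]
  rw [this]
  refine (isClosed_le continuous_norm continuous_const).inter ?_
  refine isClosed_biInter fun s _ => isClosed_le continuous_const ?_
  fun_prop

/-- the small gap -/
theorem exists_gap {f : E →L[ℝ] ℝ} (hf : ‖f‖ ≤ 1) {T : Finset E} (hT : Conf T) :
    ∃ d₀ : ℝ, 0 < d₀ ∧ d₀ < 1 ∧ ∀ t ∈ T, (1 - d₀ ≤ f t → f t = 1) ∧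
      (f t ≤ -1 + d₀ → f t = -1) := by
  have key : ∀ᶠ d in 𝓝[>] (0 : ℝ), ∀ t ∈ T, (1 - d ≤ f t → f t = 1) ∧
      (f t ≤ -1 + d → f t = -1) := by
    rw [Filter.eventually_all_finset]
    intro t ht
    have h1 : f t ≤ 1 := (apply_le hf t).trans (hT.norm t ht).le
    have h2 : -1 ≤ f t := by
      have := neg_le_apply hf t
      rw [hT.norm t ht] at this
      exact this
    have k1 : ∀ᶠ d in 𝓝[>] (0 : ℝ), (1 - d ≤ f t → f t = 1) := by
      rcases eq_or_lt_of_le h1 with h | h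
      · exact Eventually.of_forall fun _ _ => h
      · have : ∀ᶠ d in 𝓝[>] (0 : ℝ), d < 1 - f t :=
          nhdsWithin_le_nhds (Iio_mem_nhds (by linarith))
        filter_upwards [this] with d hd h'
        linarith
    have k2 : ∀ᶠ d in 𝓝[>] (0 : ℝ), (f t ≤ -1 + d → f t = -1) := by
      rcases eq_or_lt_of_le h2 with h | h
      · exact Eventually.of_forall fun _ _ => h.symm
      · have : ∀ᶠ d in 𝓝[>] (0 : ℝ), d < 1 + f t :=
          nhdsWithin_le_nhds (Iio_mem_nhds (by linarith))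
        filter_upwards [this] with d hd h'
        linarith
    exact k1.and k2
  have h1 : ∀ᶠ d in 𝓝[>] (0 : ℝ), d < 1 := nhdsWithin_le_nhds (Iio_mem_nhds (by norm_num))
  have h0 : ∀ᶠ d in 𝓝[>] (0 : ℝ), 0 < d := self_mem_nhdsWithin
  obtain ⟨d, hd, hd1, hd0⟩ := (key.and (h1.and h0)).exists
  exact ⟨d, hd0, hd1, hd⟩

/-- the covering of the layer -/
theorem cover {f : E →L[ℝ] ℝ} (hf : ‖f‖ ≤ 1) {T : Finset E} (hdim : Module.finrank ℝ E = 3)
    (hT : Conf T) (hA : SpecCoverA) {d₀ : ℝ} (hd1 : d₀ < 1)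
    (hgap : ∀ t ∈ T, (1 - d₀ ≤ f t → f t = 1) ∧ (f t ≤ -1 + d₀ → f t = -1))
    {d : ℝ} (hd : d ≤ d₀) {x : E} (hx : ‖x‖ ≤ 3 / 2) (hfx : 3 / 2 - d ≤ f x) :
    (∃ t ∈ T.filter (fun t => f t = 1), x - t ∈ L f d) ∨
      ∃ t ∈ T.filter (fun t => f t = -1), x + t ∈ R T t ∩ L f d := by
  classical
  by_cases hc : ∃ s ∈ T, ‖x - s‖ ≤ 1 / 2
  · obtain ⟨t, ht, hxt⟩ := hc
    left
    have h1 : f x - f t ≤ 1 / 2 := by
      rw [← map_sub]
      exact (apply_le hf _).trans hxt
    have h2 : f t = 1 := (hgap t ht).1 (by linarith)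
    refine ⟨t, Finset.mem_filter.2 ⟨ht, h2⟩, hxt, ?_⟩
    rw [map_sub, h2]
    linarith
  · push Not at hc
    right
    rcases hA E T hdim hT x hx with h | ⟨t, ht, hxt⟩
    · exfalso
      have := apply_le hf x
      linarith
    · rw [mem_X] at ht
      rcases ht with ht | ht
      · exact absurd hxt (not_le.2 (hc t ht))
      · have hz : ‖x + -t‖ ≤ 1 / 2 := by rwa [← sub_eq_add_neg]
        have h1 : f x + f (-t) ≤ 1 / 2 := by
          rw [← map_add]
          exact (apply_le hf _).trans hz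
        have h2 : f (-t) = -1 := (hgap _ ht).2 (by linarith)
        refine ⟨-t, Finset.mem_filter.2 ⟨ht, h2⟩, ⟨hz, fun s hs => ?_⟩, hz, ?_⟩
        · rw [add_sub_cancel_right]
          exact (hc s hs).le
        · rw [map_add, h2]
          linarith

section meas

variable [MeasurableSpace E] [BorelSpace E] (μ : Measure E) [μ.IsAddHaarMeasure]

/-- the main inequality -/
theorem main_ineq {f : E →L[ℝ] ℝ} (hf : ‖f‖ ≤ 1) {T : Finset E}
    (hdim : Module.finrank ℝ E = 3) (hT : Conf T) (hA : SpecCoverA) (hC : SpecCoverC)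
    {d₀ : ℝ} (hd1 : d₀ < 1)
    (hgap : ∀ t ∈ T, (1 - d₀ ≤ f t → f t = 1) ∧ (f t ≤ -1 + d₀ → f t = -1))
    {d : ℝ} (hd : d ≤ d₀) (hn : (T.filter (fun t => f t = 1)).card ≤ 7) :
    27 * μ (L f (d / 3)) ≤ 8 * μ (L f d) := by
  classical
  have : FiniteDimensional ℝ E := FiniteDimensional.of_finrank_pos (by rw [hdim]; norm_num)
  have h1 : μ ((3 : ℝ) • L f (d / 3)) = 27 * μ (L f (d / 3)) := by
    rw [Measure.addHaar_smul, hdim]
    congr 1
    rw [abs_of_pos (by norm_num)]
    norm_num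
  have h2 : (3 : ℝ) • L f (d / 3) ⊆
      (⋃ t ∈ T.filter (fun t => f t = 1), (fun x => x - t) ⁻¹' L f d) ∪
      ⋃ t ∈ T.filter (fun t => f t = -1), (fun x => x + t) ⁻¹' (R T t ∩ L f d) := by
    rintro x ⟨y, ⟨hy1, hy2⟩, rfl⟩
    have hx : ‖(3 : ℝ) • y‖ ≤ 3 / 2 := by
      rw [norm_smul, Real.norm_of_nonneg (by norm_num)]
      linarith
    have hfx : 3 / 2 - d ≤ f ((3 : ℝ) • y) := by
      rw [map_smul, smul_eq_mul]
      linarith
    rcases cover hf hdim hT hA hd1 hgap hd hx hfx with ⟨t, ht, h⟩ | ⟨t, ht, h⟩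
    · exact Or.inl (Set.mem_iUnion₂.2 ⟨t, ht, h⟩)
    · exact Or.inr (Set.mem_iUnion₂.2 ⟨t, ht, h⟩)
  have h3 : μ (⋃ t ∈ T.filter (fun t => f t = 1), (fun x => x - t) ⁻¹' L f d) ≤
      7 * μ (L f d) := by
    refine (measure_biUnion_finset_le _ _).trans ?_
    have e : ∀ t ∈ T.filter (fun t => f t = 1), μ ((fun x => x - t) ⁻¹' L f d) = μ (L f d) := by
      intro t _
      simp only [sub_eq_add_neg]
      exact measure_preimage_add_right μ (-t) (L f d)
    rw [Finset.sum_congr rfl e, Finset.sum_const, nsmul_eq_mul]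
    gcongr
    exact_mod_cast hn
  have h4 : μ (⋃ t ∈ T.filter (fun t => f t = -1), (fun x => x + t) ⁻¹' (R T t ∩ L f d)) ≤
      μ (L f d) := by
    refine (measure_biUnion_finset_le _ _).trans ?_
    have e : ∀ t ∈ T.filter (fun t => f t = -1),
        μ ((fun x => x + t) ⁻¹' (R T t ∩ L f d)) = μ (R T t ∩ L f d) := by
      intro t _
      exact measure_preimage_add_right μ t _
    rw [Finset.sum_congr rfl e, ← measure_biUnion_finset₀]
    · exact measure_mono (Set.iUnion₂_subset fun t _ => Set.inter_subset_right)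
    · intro t ht t' ht' hne
      have ht1 : t ∈ T := (Finset.mem_filter.1 (Finset.mem_coe.1 ht)).1
      have ht2 : t' ∈ T := (Finset.mem_filter.1 (Finset.mem_coe.1 ht')).1
      exact measure_mono_null
        (Set.inter_subset_inter Set.inter_subset_left Set.inter_subset_left)
        (hC E μ T hdim hT t ht1 t' ht2 hne)
    · intro t _
      exact ((isClosed_R T t).inter (isClosed_L f d)).measurableSet.nullMeasurableSet
  calc 27 * μ (L f (d / 3)) = μ ((3 : ℝ) • L f (d / 3)) := h1.symm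
    _ ≤ _ := measure_mono h2
    _ ≤ _ := measure_union_le _ _
    _ ≤ 7 * μ (L f d) + μ (L f d) := add_le_add h3 h4
    _ = 8 * μ (L f d) := by ring

/-- the lower bound -/
theorem lower {f : E →L[ℝ] ℝ} (hdim : Module.finrank ℝ E = 3)
    (w : Fin 3 → E) (hw : LinearIndependent ℝ w) (hw1 : ∀ i, ‖w i‖ ≤ 1) (hfw : ∀ i, f (w i) = 1) :
    ∃ M : ℝ, 0 < M ∧ ∀ e : ℝ, 0 ≤ e → e < 1 / 2 → 2 * e * M ≤ (μ (L f e)).toReal := by
  classical
  have : FiniteDimensional ℝ E := FiniteDimensional.of_finrank_pos (by rw [hdim]; norm_num)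
  set b : Module.Basis (Fin 3) ℝ E :=
    basisOfLinearIndependentOfCardEqFinrank hw (by rw [hdim]; simp) with hb
  have hbw : ∀ i, b i = w i := fun i => by
    rw [hb, coe_basisOfLinearIndependentOfCardEqFinrank]
  have hcont : ∀ i, Continuous (fun x => b.coord i x) := fun i =>
    LinearMap.continuous_of_finiteDimensional _
  set Dd : Set E := {x | (∀ i, 0 < b.coord i x) ∧ ∑ i, b.coord i x < 1 / 2} with hD
  have hopen : IsOpen Dd := by
    have : Dd = (⋂ i, {x | 0 < b.coord i x}) ∩ {x | ∑ i, b.coord i x < 1 / 2} := by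
      ext x
      simp [hD]
    rw [this]
    refine (isOpen_iInter_of_finite fun i => isOpen_lt continuous_const (hcont i)).inter ?_
    exact isOpen_lt (continuous_finsetSum _ fun i _ => hcont i) continuous_const
  have hne : Dd.Nonempty := by
    refine ⟨∑ i, (1 / 12 : ℝ) • b i, ?_, ?_⟩
    · intro i
      simp only [Module.Basis.coord_apply, map_sum, map_smul, Module.Basis.repr_self,
        Finsupp.single_apply]
      simp
    · simp only [Module.Basis.coord_apply, map_sum, map_smul, Module.Basis.repr_self,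
        Finsupp.single_apply]
      simp
      norm_num
  have hx : ∀ x : E, x = ∑ i, b.coord i x • w i := by
    intro x
    conv_lhs => rw [← b.sum_repr x]
    simp only [hbw, Module.Basis.coord_apply]
  have hf' : ∀ x : E, f x = ∑ i, b.coord i x := by
    intro x
    conv_lhs => rw [hx x]
    rw [map_sum]
    refine Finset.sum_congr rfl fun i _ => ?_
    rw [map_smul, hfw i, smul_eq_mul, mul_one]
  have hnorm : ∀ x ∈ Dd, ‖x‖ ≤ 1 / 2 := by
    rintro x ⟨h1, h2⟩
    have : ‖x‖ ≤ ∑ i, b.coord i x := by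
      conv_lhs => rw [hx x]
      refine (norm_sum_le _ _).trans (Finset.sum_le_sum fun i _ => ?_)
      rw [norm_smul, Real.norm_of_nonneg (h1 i).le]
      calc b.coord i x * ‖w i‖ ≤ b.coord i x * 1 :=
            mul_le_mul_of_nonneg_left (hw1 i) (h1 i).le
        _ = b.coord i x := mul_one _
    linarith
  have hpos : 0 < μ Dd := hopen.measure_pos μ hne
  have hfin : μ Dd ≠ ∞ := by
    refine ne_of_lt (lt_of_le_of_lt (measure_mono (t := Metric.closedBall 0 (1 / 2)) ?_)
      (isCompact_closedBall _ _).measure_lt_top)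
    intro x hx
    rw [mem_closedBall_zero_iff]
    exact hnorm x hx
  refine ⟨(μ Dd).toReal, ENNReal.toReal_pos hpos.ne' hfin, ?_⟩
  intro e he0 he1
  have hLfin : μ (L f e) ≠ ∞ := by
    refine ne_of_lt (lt_of_le_of_lt (measure_mono (t := Metric.closedBall 0 (1 / 2)) ?_)
      (isCompact_closedBall _ _).measure_lt_top)
    intro x hx
    rw [mem_closedBall_zero_iff]
    exact hx.1
  have hsub : Dd ⊆ L f e ∪ (1 - 2 * e) • Dd := by
    intro x hxD
    by_cases hs : 1 / 2 - e ≤ ∑ i, b.coord i x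
    · exact Or.inl ⟨hnorm x hxD, by rw [hf' x]; exact hs⟩
    · right
      push Not at hs
      have hpos' : 0 < 1 - 2 * e := by linarith
      refine ⟨(1 - 2 * e)⁻¹ • x, ⟨fun i => ?_, ?_⟩, ?_⟩
      · rw [map_smul, smul_eq_mul]
        exact mul_pos (inv_pos.2 hpos') (hxD.1 i)
      · simp only [map_smul, smul_eq_mul]
        rw [← Finset.mul_sum, inv_mul_lt_iff₀ hpos']
        linarith
      · show (1 - 2 * e) • (1 - 2 * e)⁻¹ • x = x
        rw [smul_smul, mul_inv_cancel₀ hpos'.ne', one_smul]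
  have hle : μ Dd ≤ μ (L f e) + ENNReal.ofReal ((1 - 2 * e) ^ 3) * μ Dd := by
    refine (measure_mono hsub).trans ((measure_union_le _ _).trans ?_)
    have h0 : 0 ≤ 1 - 2 * e := by linarith
    rw [Measure.addHaar_smul, hdim, abs_of_nonneg (pow_nonneg h0 3)]
  have hle' : (μ Dd).toReal ≤ (μ (L f e)).toReal + (1 - 2 * e) ^ 3 * (μ Dd).toReal := by
    have h1 := ENNReal.toReal_mono
      (ENNReal.add_ne_top.2 ⟨hLfin, ENNReal.mul_ne_top ENNReal.ofReal_ne_top hfin⟩) hle
    rw [ENNReal.toReal_add hLfin (ENNReal.mul_ne_top ENNReal.ofReal_ne_top hfin),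
      ENNReal.toReal_mul, ENNReal.toReal_ofReal (by
        have : 0 ≤ 1 - 2 * e := by linarith
        positivity)] at h1
    exact h1
  have hM : 0 ≤ (μ Dd).toReal := ENNReal.toReal_nonneg
  have hu : (1 - 2 * e) ^ 3 ≤ 1 - 2 * e := by
    have h0 : 0 ≤ 1 - 2 * e := by linarith
    have h1 : 1 - 2 * e ≤ 1 := by linarith
    calc (1 - 2 * e) ^ 3 ≤ (1 - 2 * e) ^ 1 := pow_le_pow_of_le_one h0 h1 (by norm_num)
      _ = 1 - 2 * e := pow_one _
  nlinarith [mul_le_mul_of_nonneg_right hu hM]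

end meas

end Layer

open Layer in
/-- LAYER -/
theorem specLayer (hA : SpecCoverA) (hC : SpecCoverC) : SpecLayer := by
  classical
  intro E _ _ T hdim hT f hf hw
  obtain ⟨w, hw, hw1⟩ := hw
  refine ⟨T.filter (fun t => f t = 1), Finset.filter_subset _ _, ?_,
    fun t ht => (Finset.mem_filter.1 ht).2⟩
  by_contra hcard
  have hn : (T.filter (fun t => f t = 1)).card ≤ 7 := by omega
  let _ : MeasurableSpace E := borel E
  have : BorelSpace E := ⟨rfl⟩
  have : FiniteDimensional ℝ E := FiniteDimensional.of_finrank_pos (by rw [hdim]; norm_num)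
  let μ : Measure E := Measure.addHaar
  obtain ⟨d₀, hd0, hd1, hgap⟩ := exists_gap hf hT
  obtain ⟨M, hM, hlow⟩ := lower μ hdim w hw (fun i => (hw1 i).1) (fun i => (hw1 i).2)
  set l : ℝ → ℝ := fun d => (μ (L f d)).toReal with hl
  have hfin : ∀ d, μ (L f d) ≠ ⊤ := by
    intro d
    refine ne_of_lt (lt_of_le_of_lt (measure_mono (t := Metric.closedBall 0 (1 / 2)) ?_)
      (isCompact_closedBall _ _).measure_lt_top)
    intro x hx
    rw [mem_closedBall_zero_iff]
    exact hx.1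
  have hstep : ∀ d ≤ d₀, l (d / 3) ≤ (8 / 27) * l d := by
    intro d hd
    have h1 := main_ineq μ hf hdim hT hA hC hd1 hgap hd hn
    have h2 := ENNReal.toReal_mono (ENNReal.mul_ne_top (by norm_num) (hfin d)) h1
    rw [ENNReal.toReal_mul, ENNReal.toReal_mul] at h2
    have e1 : (27 : ENNReal).toReal = 27 := by norm_num
    have e2 : (8 : ENNReal).toReal = 8 := by norm_num
    rw [e1, e2] at h2
    simp only [hl]
    linarith
  have hiter : ∀ k : ℕ, l (d₀ / 3 ^ k) ≤ (8 / 27) ^ k * l d₀ := by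
    intro k
    induction k with
    | zero => simp
    | succ k ih =>
      have h1 : d₀ / 3 ^ k ≤ d₀ := div_le_self hd0.le (one_le_pow₀ (by norm_num))
      have h2 := hstep _ h1
      rw [div_div, ← pow_succ] at h2
      calc l (d₀ / 3 ^ (k + 1)) ≤ 8 / 27 * l (d₀ / 3 ^ k) := h2
        _ ≤ 8 / 27 * ((8 / 27) ^ k * l d₀) := by gcongr
        _ = (8 / 27) ^ (k + 1) * l d₀ := by ring
  have hbound : ∀ k : ℕ, 2 * d₀ * M ≤ (8 / 9) ^ (k + 1) * l d₀ := by
    intro k
    have h3 : (0 : ℝ) < 3 ^ (k + 1) := by positivity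
    have h3' : (3 : ℝ) ≤ 3 ^ (k + 1) := by
      calc (3 : ℝ) = 3 ^ 1 := (pow_one _).symm
        _ ≤ 3 ^ (k + 1) := pow_le_pow_right₀ (by norm_num) (by omega)
    have h1 := hlow (d₀ / 3 ^ (k + 1)) (by positivity) (by
      rw [div_lt_iff₀ h3]
      linarith)
    have h2 := h1.trans (hiter (k + 1))
    have e : (8 / 9 : ℝ) ^ (k + 1) = (8 / 27) ^ (k + 1) * 3 ^ (k + 1) := by
      rw [← mul_pow]; norm_num
    rw [e]
    have h4 : 2 * (d₀ / 3 ^ (k + 1)) * M = (2 * d₀ * M) / 3 ^ (k + 1) := by ring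
    rw [h4, div_le_iff₀ h3] at h2
    linarith
  have hlim : Tendsto (fun k : ℕ => (8 / 9 : ℝ) ^ (k + 1) * l d₀) atTop (𝓝 (0 * l d₀)) := by
    refine Tendsto.mul_const _ ?_
    exact (tendsto_add_atTop_iff_nat 1).2
      (tendsto_pow_atTop_nhds_zero_of_lt_one (by norm_num) (by norm_num))
  have := ge_of_tendsto' hlim hbound
  rw [zero_mul] at this
  have hpos : 0 < 2 * d₀ * M := by positivity
  linarith

end MP50d2fe
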