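import Pool.Agent.Lib.MP_50d2fe_co.Spec

/-!
MAIN (via PLANE): the unit ball is a parallelepiped.
-/

set_option autoImplicit false

open MeasureTheory

namespace MP50d2fe

theorem specMainP (hFa : SpecFacet) (hPl : SpecPlane) (hLa : SpecLayer) (hTr : SpecTri) :
    SpecMain := by
  intro E _ _ T hfin hT
  classical
  obtain ⟨f₀, hf, hspan⟩ := hFa E T hfin hT
  rcases hPl E T hfin hT f₀ hf hspan with ⟨v, w, p, hli, hv, hw, hp, hface⟩ | h
  · exfalso
    have hfd : FiniteDimensional ℝ E := FiniteDimensional.of_finrank_pos (by rw [hfin]; norm_num)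
    -- three independent contact points
    have hindep : ∃ u : Fin 3 → E, LinearIndependent ℝ u ∧ ∀ i, ‖u i‖ ≤ 1 ∧ f₀ (u i) = 1 := by
      have h1 := exists_linearIndependent ℝ {t : E | t ∈ X T ∧ f₀ t = 1}
      obtain ⟨b, hb, hbs, hbl⟩ := h1
      rw [hspan] at hbs
      have hbasis := Module.Basis.mk hbl (by rw [Subtype.range_coe]; exact hbs.ge)
      have hcard : Module.finrank ℝ E = Nat.card b := Module.finrank_eq_nat_card_basis hbasis
      rw [hfin] at hcard
      have hfinb : Finite b := Nat.finite_of_card_ne_zero (by rw [← hcard]; norm_num)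
      let e : Fin 3 ≃ b := (Finite.equivFinOfCardEq hcard.symm).symm
      refine ⟨fun i => (e i : E), ?_, ?_⟩
      · exact hbl.comp e e.injective
      · intro i
        have := hb (e i).2
        exact ⟨(hT.normX this.1).le, this.2⟩
    obtain ⟨S, hST, hS8, hSf⟩ := hLa E T hfin hT f₀ hf hindep
    have := hTr E v w p hli hv hw hp S
      (fun s hs => hface s (hT.norm s (hST hs)).le (hSf s hs))
      (fun s hs s' hs' hne => hT.sep s (hST hs) s' (hST hs') hne)
    omega
  · exact h

end MP50d2fe
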