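import Pool.Agent.Lib.MP_50d2fe_co.Spec

/-!
# MATCH
-/

set_option autoImplicit false

namespace MP50d2fe

theorem specMatch : SpecMatch := by
  intro E _ _ T hT z hz
  by_contra hcon
  push Not at hcon
  choose! p hp hpz using hcon
  have huniq : ∀ t ∈ T, ∀ s ∈ T, ∀ s' ∈ T, ‖z - t - s‖ < 1 / 2 → ‖z - t - s'‖ < 1 / 2 →
      s = s' := by
    intro t _ s hs s' hs' h1 h2
    by_contra hne
    have h3 := hT.sep s hs s' hs' hne
    have h4 : s - s' = (z - t - s') - (z - t - s) := by abel
    rw [h4] at h3
    have h5 := norm_sub_le (z - t - s') (z - t - s)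
    linarith
  have hinv : ∀ t ∈ T, p (p t) = t := by
    intro t ht
    have h1 : ‖z - p t - t‖ < 1 / 2 := by
      have h2 := hpz t ht
      rwa [sub_right_comm] at h2
    exact huniq (p t) (hp t ht) _ (hp _ (hp t ht)) t ht (hpz _ (hp t ht)) h1
  have hne : ∀ t ∈ T, p t ≠ t := by
    intro t ht h
    have h1 := hpz t ht
    rw [h] at h1
    have h2 : (2 : ℝ) • t = z - (z - t - t) := by rw [two_smul]; abel
    have h3 : ‖(2 : ℝ) • t‖ = 2 := by
      rw [norm_smul, hT.norm t ht]; norm_num
    rw [h2] at h3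
    have h4 := norm_sub_le z (z - t - t)
    linarith
  have hsum : ∑ _t ∈ T, (1 : ZMod 2) = 0 := by
    refine Finset.sum_involution (fun t _ => p t) ?_ ?_ ?_ ?_
    · intro t _
      decide
    · intro t ht _
      exact hne t ht
    · intro t ht
      exact hp t ht
    · intro t ht
      exact hinv t ht
  rw [Finset.sum_const, hT.card] at hsum
  revert hsum
  decide

end MP50d2fe
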