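import Pool.Agent.Lib.MP_50d2fe_co.Spec

/-!
NORM: the norm defined by a symmetric convex body.
-/

set_option autoImplicit false

namespace MP50d2fe.Norm

open MP50d2fe

/-- Euclidean space without a norm -/
def G3 : Type := Fin 3 → ℝ

instance : AddCommGroup G3 := inferInstanceAs (AddCommGroup (Fin 3 → ℝ))

instance : Module ℝ G3 := inferInstanceAs (Module ℝ (Fin 3 → ℝ))

/-- the identification -/
noncomputable def e : EuclideanSpace ℝ (Fin 3) ≃ₗ[ℝ] G3 := WithLp.linearEquiv 2 ℝ (Fin 3 → ℝ)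

theorem finrank_G3 : Module.finrank ℝ G3 = 3 := by
  rw [← LinearEquiv.finrank_eq e]
  simp

theorem gauge_core {K : Set (EuclideanSpace ℝ (Fin 3))} (hK : IsCompact K) (hc : Convex ℝ K)
    (hs : ∀ x ∈ K, -x ∈ K) (h0 : K ∈ nhds 0) :
    @NormedSpace.Core ℝ G3 _ _ _ ⟨fun g => gauge K (e.symm g)⟩ := by
  let _ : Norm G3 := ⟨fun g => gauge K (e.symm g)⟩
  have hnorm : ∀ g : G3, ‖g‖ = gauge K (e.symm g) := fun _ => rfl
  refine @NormedSpace.Core.mk ℝ G3 _ _ _ _ ⟨?_, ?_, ?_⟩ ?_
  · intro x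
    rw [hnorm]
    exact gauge_nonneg _
  · intro c x
    rw [hnorm, hnorm, map_smul]
    rcases le_total 0 c with h | h
    · rw [gauge_smul_of_nonneg h, Real.norm_of_nonneg h, smul_eq_mul]
    · have h1 : c • e.symm x = -((-c) • e.symm x) := by rw [neg_smul, neg_neg]
      rw [h1, gauge_neg hs, gauge_smul_of_nonneg (neg_nonneg.2 h), Real.norm_of_nonpos h,
        smul_eq_mul]
  · intro x y
    rw [hnorm, hnorm, hnorm, map_add]
    exact gauge_add_le hc (absorbent_nhds_zero h0) _ _
  · intro x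
    rw [hnorm, gauge_eq_zero (absorbent_nhds_zero h0)
      (NormedSpace.isVonNBounded_of_isBounded ℝ hK.isBounded)]
    exact e.symm.map_eq_zero_iff

theorem main (h : SpecMain) (K : Set (EuclideanSpace ℝ (Fin 3))) (hK : IsCompact K)
    (hc : Convex ℝ K) (hi : (interior K).Nonempty) (hs : ∀ x ∈ K, -x ∈ K)
    (v : Fin 25 → EuclideanSpace ℝ (Fin 3)) (hv : ∀ i, v i ∈ K) (hvi : ∀ i, v i ∉ interior K)
    (hvv : ∀ i j, i ≠ j → v i - v j ∉ interior K) :
    ∃ f : Fin 3 → (EuclideanSpace ℝ (Fin 3) →ₗ[ℝ] ℝ), LinearIndependent ℝ f ∧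
        ∀ x, x ∈ K ↔ ∀ i, |f i x| ≤ 1 := by
  classical
  have hneg : ∀ x ∈ interior K, -x ∈ interior K := by
    intro x hx
    have hset : (fun y : EuclideanSpace ℝ (Fin 3) => -y) ⁻¹' K = K := by
      ext y
      constructor
      · intro hy
        have := hs _ hy
        rwa [neg_neg] at this
      · intro hy
        exact hs y hy
    have h1 := (Homeomorph.neg (EuclideanSpace ℝ (Fin 3))).preimage_interior K
    have h2 : (fun y : EuclideanSpace ℝ (Fin 3) => -y) ⁻¹' interior K = interior K := by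
      have h3 : (fun y : EuclideanSpace ℝ (Fin 3) => -y) ⁻¹' interior K =
        interior ((fun y : EuclideanSpace ℝ (Fin 3) => -y) ⁻¹' K) := h1
      rw [h3, hset]
    have h4 : x ∈ (fun y : EuclideanSpace ℝ (Fin 3) => -y) ⁻¹' interior K := by rw [h2]; exact hx
    exact h4
  have h0i : (0 : EuclideanSpace ℝ (Fin 3)) ∈ interior K := by
    obtain ⟨p, hp⟩ := hi
    have h1 := hc.interior hp (hneg p hp) (by norm_num : (0 : ℝ) ≤ 1 / 2)
      (by norm_num : (0 : ℝ) ≤ 1 / 2) (by norm_num)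
    rwa [smul_neg, add_neg_cancel] at h1
  have h0 : K ∈ nhds (0 : EuclideanSpace ℝ (Fin 3)) := mem_interior_iff_mem_nhds.1 h0i
  have core := gauge_core hK hc hs h0
  let N : Norm G3 := ⟨fun g => gauge K (e.symm g)⟩
  let I1 : NormedAddCommGroup G3 := @NormedAddCommGroup.ofCore ℝ G3 _ _ _ N core
  let I2 : NormedSpace ℝ G3 := NormedSpace.ofCore core
  have hnorm : ∀ g : G3, ‖g‖ = gauge K (e.symm g) := fun _ => rfl
  have hle : ∀ x, gauge K x ≤ 1 ↔ x ∈ K := by
    intro x
    rw [gauge_le_one_iff_mem_closure hc h0, hK.isClosed.closure_eq]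
  have hlt : ∀ x, gauge K x < 1 ↔ x ∈ interior K := by
    intro x
    exact gauge_lt_one_iff_mem_interior hc h0
  have hinj : Function.Injective v := by
    intro i j hij
    by_contra hne
    apply hvv i j hne
    rw [hij, sub_self]
    exact h0i
  let T : Finset G3 := Finset.univ.image (fun i => e (v i))
  have hT : Conf T := by
    refine ⟨?_, ?_, ?_⟩
    · show (Finset.univ.image (fun i => e (v i))).card = 25
      rw [Finset.card_image_of_injective Finset.univ (fun i j hij => hinj (e.injective hij))]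
      simp
    · intro t ht
      obtain ⟨i, -, rfl⟩ := Finset.mem_image.1 ht
      rw [hnorm, LinearEquiv.symm_apply_apply]
      refine le_antisymm ((hle _).2 (hv i)) (not_lt.1 fun hcon => hvi i ((hlt _).1 hcon))
    · intro t ht t' ht' hne
      obtain ⟨i, -, rfl⟩ := Finset.mem_image.1 ht
      obtain ⟨j, -, rfl⟩ := Finset.mem_image.1 ht'
      have hij : i ≠ j := fun hh => hne (by rw [hh])
      rw [hnorm, map_sub, LinearEquiv.symm_apply_apply, LinearEquiv.symm_apply_apply]
      exact not_lt.1 fun hcon => hvv i j hij ((hlt _).1 hcon)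
  obtain ⟨f, hf, hf2⟩ := h G3 T finrank_G3 hT
  refine ⟨fun i => (f i).toLinearMap ∘ₗ e.toLinearMap, ?_, ?_⟩
  · let L : (G3 →L[ℝ] ℝ) →ₗ[ℝ] (EuclideanSpace ℝ (Fin 3) →ₗ[ℝ] ℝ) :=
      { toFun := fun g => g.toLinearMap ∘ₗ e.toLinearMap
        map_add' := fun a b => rfl
        map_smul' := fun c a => rfl }
    have hL : LinearMap.ker L = ⊥ := by
      rw [LinearMap.ker_eq_bot']
      intro g hg
      apply ContinuousLinearMap.ext
      intro y
      have := congrArg (fun q : EuclideanSpace ℝ (Fin 3) →ₗ[ℝ] ℝ => q (e.symm y)) hg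
      have h3 : g (e (e.symm y)) = 0 := this
      rwa [LinearEquiv.apply_symm_apply] at h3
    exact hf.map' L hL
  · intro x
    rw [← hle x]
    have h1 := hf2 (e x)
    rw [hnorm, LinearEquiv.symm_apply_apply] at h1
    exact h1

end MP50d2fe.Norm

namespace MP50d2fe

theorem specNorm (h : SpecMain) : SpecNorm := by
  intro K hK hc hi hs v hv hvi hvv
  exact Norm.main h K hK hc hi hs v hv hvi hvv

end MP50d2fe
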