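import Pool.Agent.Lib.MP_50d2fe_co.Spec

/-!
PLANE: a two-dimensional face of the unit ball is a triangle, or the unit ball is a parallelepiped.
-/

set_option autoImplicit false

open MeasureTheory

namespace MP50d2fe

namespace Plane

variable {E : Type} [NormedAddCommGroup E] [NormedSpace ℝ E]

theorem li3 {v w p : E} (h : ∀ a b c : ℝ, a • v + b • w + c • p = 0 → a = 0 ∧ b = 0 ∧ c = 0) :
    LinearIndependent ℝ ![v, w, p] := by
  rw [Fintype.linearIndependent_iff]
  intro g hg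
  rw [Fin.sum_univ_three] at hg
  simp only [Matrix.cons_val_zero, Matrix.cons_val_one, Matrix.cons_val_two,
    Matrix.head_cons, Matrix.tail_cons, Matrix.cons_val] at hg
  obtain ⟨h0, h1, h2⟩ := h _ _ _ hg
  intro i
  fin_cases i
  · exact h0
  · exact h1
  · exact h2

theorem expand (hfin : Module.finrank ℝ E = 3) {v w p : E}
    (hli : LinearIndependent ℝ ![v, w, p]) (x : E) :
    ∃ a b c : ℝ, x = a • v + b • w + c • p := by
  let b := basisOfLinearIndependentOfCardEqFinrank hli (by simp [hfin])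
  refine ⟨b.repr x 0, b.repr x 1, b.repr x 2, ?_⟩
  have h := b.sum_repr x
  rw [Fin.sum_univ_three] at h
  have h0 : b 0 = v := by simp [b]
  have h1 : b 1 = w := by simp [b]
  have h2 : b 2 = p := by simp [b]
  rw [h0, h1, h2] at h
  exact h.symm

theorem clm_le {f : E →L[ℝ] ℝ} (hf : ‖f‖ ≤ 1) {x : E} (hx : ‖x‖ ≤ 1) : |f x| ≤ 1 := by
  have h := f.le_opNorm x
  rw [Real.norm_eq_abs] at h
  have h2 : ‖f‖ * ‖x‖ ≤ 1 * 1 := mul_le_mul hf hx (norm_nonneg _) zero_le_one
  linarith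

theorem faceNonneg (hH : SpecHull) (hfin : Module.finrank ℝ E = 3) {T : Finset E} (hT : Conf T)
    {f₀ y : E →L[ℝ] ℝ} (hf : ‖f₀‖ ≤ 1) (hy : ∀ t ∈ X T, f₀ t = 1 → 0 ≤ y t) {x : E}
    (hx : ‖x‖ ≤ 1) (hfx : f₀ x = 1) : 0 ≤ y x := by
  classical
  have h := hH E T hfin hT x hx
  rw [Finset.mem_convexHull'] at h
  obtain ⟨c, hc0, hc1, hcx⟩ := h
  have hle : ∀ t ∈ X T, f₀ t ≤ 1 := fun t ht =>
    (abs_le.mp (clm_le hf (hT.normX ht).le)).2
  have hfsum : ∑ t ∈ X T, c t * f₀ t = 1 := by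
    rw [← hfx, ← hcx, map_sum]
    refine Finset.sum_congr rfl fun t _ => ?_
    rw [map_smul, smul_eq_mul]
  have hzero : ∑ t ∈ X T, c t * (1 - f₀ t) = 0 := by
    have : ∑ t ∈ X T, c t * (1 - f₀ t) = ∑ t ∈ X T, c t - ∑ t ∈ X T, c t * f₀ t := by
      rw [← Finset.sum_sub_distrib]
      refine Finset.sum_congr rfl fun t _ => by ring
    rw [this, hc1, hfsum, sub_self]
  rw [Finset.sum_eq_zero_iff_of_nonneg
    (fun t ht => mul_nonneg (hc0 t ht) (by linarith [hle t ht]))] at hzero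
  have hysum : y x = ∑ t ∈ X T, c t * y t := by
    rw [← hcx, map_sum]
    refine Finset.sum_congr rfl fun t _ => ?_
    rw [map_smul, smul_eq_mul]
  rw [hysum]
  refine Finset.sum_nonneg fun t ht => ?_
  rcases mul_eq_zero.mp (hzero t ht) with h | h
  · rw [h, zero_mul]
  · exact mul_nonneg (hc0 t ht) (hy t ht (by linarith))

/-- If `‖v - w‖ = 2` and `v, w` are in the unit ball, there is a functional `h` of norm at most 1
with `h v = 1`, `h w = -1`. -/
theorem exists_h {v w : E} (hv : ‖v‖ ≤ 1) (hw : ‖w‖ ≤ 1) (hvw : ‖v - w‖ = 2) :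
    ∃ h : E →L[ℝ] ℝ, ‖h‖ ≤ 1 ∧ h v = 1 ∧ h w = -1 := by
  obtain ⟨h, hn, hh⟩ := exists_dual_vector'' ℝ (v - w)
  refine ⟨h, hn, ?_⟩
  rw [hvw, map_sub] at hh
  have h1 := abs_le.mp (clm_le hn hv)
  have h2 := abs_le.mp (clm_le hn hw)
  simp only [RCLike.ofReal_real_eq_id, id_eq] at hh
  constructor
  · linarith [h1.2, h2.1]
  · linarith [h1.2, h2.1]

theorem norm_add_smul_le {y z : E} {a : ℝ} (ha : |a| ≤ 1) (h1 : ‖y + z‖ ≤ 1)
    (h2 : ‖y - z‖ ≤ 1) : ‖y + a • z‖ ≤ 1 := by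
  obtain ⟨ha1, ha2⟩ := abs_le.mp ha
  have : y + a • z = ((1 + a) / 2) • (y + z) + ((1 - a) / 2) • (y - z) := by module
  rw [this]
  calc ‖((1 + a) / 2) • (y + z) + ((1 - a) / 2) • (y - z)‖
      ≤ ‖((1 + a) / 2) • (y + z)‖ + ‖((1 - a) / 2) • (y - z)‖ := norm_add_le _ _
    _ = (1 + a) / 2 * ‖y + z‖ + (1 - a) / 2 * ‖y - z‖ := by
        rw [norm_smul, norm_smul, Real.norm_of_nonneg (by linarith),
          Real.norm_of_nonneg (by linarith)]
    _ ≤ (1 + a) / 2 * 1 + (1 - a) / 2 * 1 := by gcongr <;> linarith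
    _ = 1 := by ring

/-- Four vertices of a parallelogram face with three functionals: the unit ball is a
parallelepiped. -/
theorem box (hfin : Module.finrank ℝ E = 3) {f₀ h g : E →L[ℝ] ℝ} (hf : ‖f₀‖ ≤ 1) (hh : ‖h‖ ≤ 1)
    (hg : ‖g‖ ≤ 1) {v w p : E} (hv : ‖v‖ ≤ 1) (hw : ‖w‖ ≤ 1) (hp : ‖p‖ ≤ 1)
    (hq : ‖p - (v - w)‖ ≤ 1) (f₀v : f₀ v = 1) (f₀w : f₀ w = 1) (f₀p : f₀ p = 1)
    (hv' : h v = 1) (hw' : h w = -1) (hp' : h p = 1)
    (gv : g v = -1) (gw : g w = -1) (gp : g p = 1) :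
    ∃ f : Fin 3 → (E →L[ℝ] ℝ), LinearIndependent ℝ f ∧
        ∀ x : E, ‖x‖ ≤ 1 ↔ ∀ i, |f i x| ≤ 1 := by
  have hli : LinearIndependent ℝ ![v, w, p] := by
    apply li3
    intro a b c habc
    have e1 := congrArg f₀ habc
    have e2 := congrArg h habc
    have e3 := congrArg g habc
    simp only [map_add, map_smul, smul_eq_mul, map_zero, f₀v, f₀w, f₀p, hv', hw', hp', gv, gw,
      gp] at e1 e2 e3
    refine ⟨by linarith, by linarith, by linarith⟩
  refine ⟨![f₀, h, g], ?_, ?_⟩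
  · rw [Fintype.linearIndependent_iff]
    intro c hc
    rw [Fin.sum_univ_three] at hc
    simp only [Matrix.cons_val_zero, Matrix.cons_val_one, Matrix.cons_val_two,
      Matrix.head_cons, Matrix.tail_cons, Matrix.cons_val] at hc
    have e1 := DFunLike.congr_fun hc v
    have e2 := DFunLike.congr_fun hc w
    have e3 := DFunLike.congr_fun hc p
    simp only [ContinuousLinearMap.add_apply, ContinuousLinearMap.smul_apply, smul_eq_mul,
      ContinuousLinearMap.zero_apply, f₀v, f₀w, f₀p, hv', hw', hp', gv, gw, gp] at e1 e2 e3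
    intro i
    fin_cases i
    · show c 0 = 0
      linarith
    · show c 1 = 0
      linarith
    · show c 2 = 0
      linarith
  · intro x
    constructor
    · intro hx i
      fin_cases i
      · exact clm_le hf hx
      · exact clm_le hh hx
      · exact clm_le hg hx
    · intro hx
      have h0 : |f₀ x| ≤ 1 := hx 0
      have h1 : |h x| ≤ 1 := hx 1
      have h2 : |g x| ≤ 1 := hx 2
      obtain ⟨a, b, c, habc⟩ := expand hfin hli x
      have e0 : f₀ x = a + b + c := by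
        rw [habc]; simp only [map_add, map_smul, smul_eq_mul, f₀v, f₀w, f₀p]; ring
      have e1 : h x = a - b + c := by
        rw [habc]; simp only [map_add, map_smul, smul_eq_mul, hv', hw', hp']; ring
      have e2 : g x = - a - b + c := by
        rw [habc]; simp only [map_add, map_smul, smul_eq_mul, gv, gw, gp]; ring
      have hx' : x = (f₀ x • ((1/2 : ℝ) • (w + p)) + h x • ((1/2 : ℝ) • (v - w)))
          + g x • ((1/2 : ℝ) • (p - v)) := by
        rw [e0, e1, e2]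
        nth_rewrite 1 [habc]
        module
      have key : ∀ z : E, ‖z‖ ≤ 1 → ‖-z‖ ≤ 1 := fun z hz => by rwa [norm_neg]
      rw [hx']
      -- first coordinate last
      have step1 : ∀ s : ℝ, (s = 1 ∨ s = -1) → ∀ r : ℝ, (r = 1 ∨ r = -1) →
          ‖(f₀ x • ((1/2 : ℝ) • (w + p)) + s • ((1/2 : ℝ) • (v - w)))
          + r • ((1/2 : ℝ) • (p - v))‖ ≤ 1 := by
        intro s hs r hr
        have hcomm : (f₀ x • ((1/2 : ℝ) • (w + p)) + s • ((1/2 : ℝ) • (v - w)))
          + r • ((1/2 : ℝ) • (p - v)) = (s • ((1/2 : ℝ) • (v - w)) + r • ((1/2 : ℝ) • (p - v)))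
            + f₀ x • ((1/2 : ℝ) • (w + p)) := by module
        rw [hcomm]
        apply norm_add_smul_le h0
        · rcases hs with rfl | rfl <;> rcases hr with rfl | rfl
          · convert hp using 2; module
          · convert hv using 2; module
          · convert hq using 2; module
          · convert hw using 2; module
        · rcases hs with rfl | rfl <;> rcases hr with rfl | rfl
          · convert key _ hw using 2; module
          · convert key _ hq using 2; module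
          · convert key _ hv using 2; module
          · convert key _ hp using 2; module
      have step2 : ∀ r : ℝ, (r = 1 ∨ r = -1) →
          ‖(f₀ x • ((1/2 : ℝ) • (w + p)) + h x • ((1/2 : ℝ) • (v - w)))
          + r • ((1/2 : ℝ) • (p - v))‖ ≤ 1 := by
        intro r hr
        have hcomm : (f₀ x • ((1/2 : ℝ) • (w + p)) + h x • ((1/2 : ℝ) • (v - w)))
          + r • ((1/2 : ℝ) • (p - v)) = (f₀ x • ((1/2 : ℝ) • (w + p)) + r • ((1/2 : ℝ) • (p - v)))
            + h x • ((1/2 : ℝ) • (v - w)) := by module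
        rw [hcomm]
        apply norm_add_smul_le h1
        · convert step1 1 (Or.inl rfl) r hr using 2; module
        · convert step1 (-1) (Or.inr rfl) r hr using 2; module
      apply norm_add_smul_le h2
      · convert step2 1 (Or.inl rfl) using 2; module
      · convert step2 (-1) (Or.inr rfl) using 2; module

theorem case1 (hS : SpecSide) (hfin : Module.finrank ℝ E = 3) {T : Finset E}
    (hT : Conf T) {f₀ y h : E →L[ℝ] ℝ} (hf : ‖f₀‖ ≤ 1) (hh : ‖h‖ ≤ 1) {v w : E}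
    (hv : ‖v‖ ≤ 1) (hw : ‖w‖ ≤ 1) (fv : f₀ v = 1) (fw : f₀ w = 1) (yv : y v = 0) (yw : y w = 0)
    (hhv : h v = 1) (hhw : h w = -1) (hvw : ‖v - w‖ = 2)
    {m : ℝ} (hm0 : 0 < m) (hm : ∀ x : E, ‖x‖ ≤ 1 → f₀ x = 1 → y x ≤ m)
    (hy0 : ∀ x : E, ‖x‖ ≤ 1 → f₀ x = 1 → 0 ≤ y x)
    (hpq : ∃ p q : E, p ≠ q ∧ ‖p‖ ≤ 1 ∧ ‖q‖ ≤ 1 ∧ f₀ p = 1 ∧ f₀ q = 1 ∧ y p = m ∧ y q = m) :
    ∃ f : Fin 3 → (E →L[ℝ] ℝ), LinearIndependent ℝ f ∧
        ∀ x : E, ‖x‖ ≤ 1 ↔ ∀ i, |f i x| ≤ 1 := by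
  obtain ⟨p₁, q₁, hne₁, hp₁, hq₁, fp₁, fq₁, yp₁, yq₁⟩ := hpq
  obtain ⟨p₂, q₂, hp₂, hq₂, fp₂, fq₂, yp₂, yq₂, hpq₂, -⟩ :=
    hS E T hfin hT f₀ hf (m • f₀ - y)
      (fun t ht hft => by
        have := hm t (hT.normX ht).le hft
        simp only [ContinuousLinearMap.sub_apply, ContinuousLinearMap.smul_apply, smul_eq_mul, hft]
        linarith)
      ⟨v, fv, by
        simp only [ContinuousLinearMap.sub_apply, ContinuousLinearMap.smul_apply, smul_eq_mul,
          fv, yv]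
        intro h0
        linarith⟩
      ⟨p₁, q₁, hne₁, hp₁, hq₁, fp₁, fq₁, by
        simp only [ContinuousLinearMap.sub_apply, ContinuousLinearMap.smul_apply, smul_eq_mul,
          fp₁, yp₁]
        ring, by
        simp only [ContinuousLinearMap.sub_apply, ContinuousLinearMap.smul_apply, smul_eq_mul,
          fq₁, yq₁]
        ring⟩
  simp only [ContinuousLinearMap.sub_apply, ContinuousLinearMap.smul_apply, smul_eq_mul,
    fp₂, fq₂] at yp₂ yq₂
  have yp₂' : y p₂ = m := by linarith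
  have yq₂' : y q₂ = m := by linarith
  -- choose the order
  have horder : ∃ p q : E, ‖p‖ ≤ 1 ∧ ‖q‖ ≤ 1 ∧ f₀ p = 1 ∧ f₀ q = 1 ∧ y p = m ∧ y q = m ∧
      p - q = v - w := by
    have hli : LinearIndependent ℝ ![v, w, p₂] := by
      apply li3
      intro a b c habc
      have e1 := congrArg f₀ habc
      have e2 := congrArg y habc
      have e3 := congrArg h habc
      simp only [map_add, map_smul, smul_eq_mul, map_zero, fv, fw, fp₂, yv, yw, yp₂', hhv,
        hhw] at e1 e2 e3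
      have hc : c = 0 := by
        have : c * m = 0 := by linarith
        rcases mul_eq_zero.mp this with h | h
        · exact h
        · linarith
      subst hc
      refine ⟨by linarith, by linarith, rfl⟩
    obtain ⟨a, b, c, habc⟩ := expand hfin hli (p₂ - q₂)
    have e1 := congrArg f₀ habc
    have e2 := congrArg y habc
    simp only [map_add, map_sub, map_smul, smul_eq_mul, fv, fw, fp₂, fq₂, yv, yw, yp₂',
      yq₂'] at e1 e2
    have hc : c = 0 := by
      have : c * m = 0 := by linarith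
      rcases mul_eq_zero.mp this with h | h
      · exact h
      · linarith
    subst hc
    have hb : b = -a := by linarith
    subst hb
    have hpq' : p₂ - q₂ = a • (v - w) := by rw [habc]; module
    have hn : ‖p₂ - q₂‖ = |a| * 2 := by rw [hpq', norm_smul, hvw, Real.norm_eq_abs]
    rw [hpq₂] at hn
    have ha : |a| = 1 := by linarith
    rcases eq_or_eq_neg_of_abs_eq ha with ha | ha
    · refine ⟨p₂, q₂, hp₂, hq₂, fp₂, fq₂, yp₂', yq₂', ?_⟩
      rw [hpq', ha, one_smul]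
    · refine ⟨q₂, p₂, hq₂, hp₂, fq₂, fp₂, yq₂', yp₂', ?_⟩
      rw [← neg_sub p₂ q₂, hpq', ha]
      module
  obtain ⟨p, q, hp, hq, fp, fq, yp, yq, hpqvw⟩ := horder
  have hhpq : h p - h q = 2 := by
    rw [← map_sub, hpqvw, map_sub, hhv, hhw]; norm_num
  have h1 := abs_le.mp (clm_le hh hp)
  have h2 := abs_le.mp (clm_le hh hq)
  have hhp : h p = 1 := by linarith [h1.2, h2.1]
  -- the side through v and p
  have hvp : v ≠ p := by
    intro hEq
    rw [← hEq, yv] at yp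
    linarith
  obtain ⟨v₁, w₁, hv₁, hw₁, fv₁, fw₁, -, -, hvw₁, hseg⟩ :=
    hS E T hfin hT f₀ hf (f₀ - h)
      (fun t ht hft => by
        have := (abs_le.mp (clm_le hh (hT.normX ht).le)).2
        simp only [ContinuousLinearMap.sub_apply, hft]
        linarith)
      ⟨w, fw, by
        simp only [ContinuousLinearMap.sub_apply, fw, hhw]
        norm_num⟩
      ⟨v, p, hvp, hv, hp, fv, fp, by
        simp only [ContinuousLinearMap.sub_apply, fv, hhv]
        norm_num, by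
        simp only [ContinuousLinearMap.sub_apply, fp, hhp]
        norm_num⟩
  have hvseg := hseg v hv fv (by
    simp only [ContinuousLinearMap.sub_apply, fv, hhv]
    norm_num)
  have hpseg := hseg p hp fp (by
    simp only [ContinuousLinearMap.sub_apply, fp, hhp]
    norm_num)
  obtain ⟨α, β, hα, hβ, hαβ, hvαβ⟩ := hvseg
  obtain ⟨γ, δ, hγ, hδ, hγδ, hpγδ⟩ := hpseg
  have hdiff : v - p = (α - γ) • (v₁ - w₁) := by
    rw [← hvαβ, ← hpγδ]
    have hβ' : β = 1 - α := by linarith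
    have hδ' : δ = 1 - γ := by linarith
    rw [hβ', hδ']
    module
  have hnorm : ‖v - p‖ = |α - γ| * 2 := by
    rw [hdiff, norm_smul, hvw₁, Real.norm_eq_abs]
  have hyd : -m = (α - γ) * (y v₁ - y w₁) := by
    have := congrArg y hdiff
    rw [map_sub, map_smul, map_sub, yv, yp, smul_eq_mul] at this
    linarith
  have hb1 := hm v₁ hv₁ fv₁
  have hb2 := hm w₁ hw₁ fw₁
  have hb3 := hy0 v₁ hv₁ fv₁
  have hb4 := hy0 w₁ hw₁ fw₁
  have habs : |y v₁ - y w₁| ≤ m := by
    rw [abs_le]; constructor <;> linarith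
  have hge : 1 ≤ |α - γ| := by
    have h1 : m = |α - γ| * |y v₁ - y w₁| := by
      rw [← abs_mul, ← hyd, abs_neg, abs_of_pos hm0]
    by_contra hlt
    push Not at hlt
    have h2 : |α - γ| * |y v₁ - y w₁| ≤ |α - γ| * m :=
      mul_le_mul_of_nonneg_left habs (abs_nonneg _)
    have h3 : |α - γ| * m < 1 * m := mul_lt_mul_of_pos_right hlt hm0
    linarith
  have hle : ‖v - p‖ ≤ 2 := by
    calc ‖v - p‖ ≤ ‖v‖ + ‖p‖ := norm_sub_le _ _
      _ ≤ 2 := by linarith
  have hvp2 : ‖p - v‖ = 2 := by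
    rw [norm_sub_rev]
    linarith
  obtain ⟨g, hg, gp, gv⟩ := exists_h hp hv hvp2
  have hgq := abs_le.mp (clm_le hg hq)
  have hgw := abs_le.mp (clm_le hg hw)
  have hgpq : g p - g q = g v - g w := by rw [← map_sub, ← map_sub, hpqvw]
  have gw : g w = -1 := by linarith [hgq.2, hgw.1]
  have hq' : ‖p - (v - w)‖ ≤ 1 := by
    rw [← hpqvw, sub_sub_cancel]; exact hq
  exact box hfin hf hh hg hv hw hp hq' fv fw fp hhv hhw hhp gv gw gp

/-- The side of the face through `v` different from `{y = 0}` reaches the top. -/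
theorem sidepoint (hS : SpecSide) (hH : SpecHull) (hfin : Module.finrank ℝ E = 3) {T : Finset E}
    (hT : Conf T) {f₀ y h : E →L[ℝ] ℝ} (hf : ‖f₀‖ ≤ 1) (hh : ‖h‖ ≤ 1) {v w : E}
    (hv : ‖v‖ ≤ 1) (hw : ‖w‖ ≤ 1) (fv : f₀ v = 1) (fw : f₀ w = 1) (yv : y v = 0) (yw : y w = 0)
    (hhv : h v = 1) (hhw : h w = -1) {m : ℝ} (hm0 : 0 < m)
    (hm : ∀ x : E, ‖x‖ ≤ 1 → f₀ x = 1 → y x ≤ m)
    (hy0 : ∀ x : E, ‖x‖ ≤ 1 → f₀ x = 1 → 0 ≤ y x)
    {p : E} (hpX : p ∈ X T) (fp : f₀ p = 1) (yp : y p = m) :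
    ∃ y' : E →L[ℝ] ℝ, (∀ x : E, ‖x‖ ≤ 1 → f₀ x = 1 → 0 ≤ y' x) ∧ y' v = 0 ∧ y' w = 2 ∧
      ∃ b : E, ‖b‖ ≤ 1 ∧ f₀ b = 1 ∧ y b = m ∧ y' b = 0 := by
  classical
  have hp : ‖p‖ ≤ 1 := (hT.normX hpX).le
  obtain ⟨b₀, hb₀, hmax⟩ := ((X T).filter (fun t => f₀ t = 1 ∧ 0 < y t)).exists_max_image
    (fun t => (h t - 1) / y t) ⟨p, by
      rw [Finset.mem_filter]
      exact ⟨hpX, fp, by rw [yp]; exact hm0⟩⟩
  rw [Finset.mem_filter] at hb₀
  obtain ⟨hb₀X, fb₀, yb₀⟩ := hb₀
  have nb₀ : ‖b₀‖ ≤ 1 := (hT.normX hb₀X).le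
  set ρ := (h b₀ - 1) / y b₀ with hρ
  have hρb : ρ * y b₀ = h b₀ - 1 := by rw [hρ]; field_simp
  set y' : E →L[ℝ] ℝ := ρ • y - h + f₀ with hy'
  have y'app : ∀ x, y' x = ρ * y x - h x + f₀ x := by
    intro x
    rw [hy']
    simp only [ContinuousLinearMap.add_apply, ContinuousLinearMap.sub_apply,
      ContinuousLinearMap.smul_apply, smul_eq_mul]
  have hX : ∀ t ∈ X T, f₀ t = 1 → 0 ≤ y' t := by
    intro t ht hft
    rw [y'app, hft]
    have hyt := hy0 t (hT.normX ht).le hft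
    rcases hyt.lt_or_eq with hpos | hzero
    · have := hmax t (by rw [Finset.mem_filter]; exact ⟨ht, hft, hpos⟩)
      rw [div_le_iff₀ hpos] at this
      linarith
    · have := (abs_le.mp (clm_le hh (hT.normX ht).le)).2
      rw [← hzero]
      linarith
  have y'v : y' v = 0 := by rw [y'app, yv, hhv, fv]; ring
  have y'w : y' w = 2 := by rw [y'app, yw, hhw, fw]; ring
  have y'b₀ : y' b₀ = 0 := by rw [y'app, hρb, fb₀]; ring
  have hvb₀ : v ≠ b₀ := by
    intro hEq
    rw [← hEq, yv] at yb₀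
    exact lt_irrefl _ yb₀
  obtain ⟨v₁, w₁, hv₁, hw₁, fv₁, fw₁, y'v₁, y'w₁, hvw₁, hseg⟩ :=
    hS E T hfin hT f₀ hf y' hX ⟨w, fw, by rw [y'w]; norm_num⟩
      ⟨v, b₀, hvb₀, hv, nb₀, fv, fb₀, y'v, y'b₀⟩
  obtain ⟨α, β, hα, hβ, hαβ, hvαβ⟩ := hseg v hv fv y'v
  obtain ⟨γ, δ, hγ, hδ, hγδ, hbγδ⟩ := hseg b₀ nb₀ fb₀ y'b₀
  have e1 : α * y v₁ + β * y w₁ = 0 := by
    rw [← yv, ← hvαβ, map_add, map_smul, map_smul, smul_eq_mul, smul_eq_mul]
  have e2 : 0 < γ * y v₁ + δ * y w₁ := by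
    rw [← hbγδ, map_add, map_smul, map_smul, smul_eq_mul, smul_eq_mul] at yb₀
    exact yb₀
  have n1 := hy0 v₁ hv₁ fv₁
  have n2 := hy0 w₁ hw₁ fw₁
  -- the other endpoint
  have hother : ∃ b : E, ‖b‖ ≤ 1 ∧ f₀ b = 1 ∧ y' b = 0 ∧ 0 < y b ∧ ‖v - b‖ = 2 := by
    rcases n2.lt_or_eq with h2 | h2
    · have hβ0 : β = 0 := by
        have h3 : 0 ≤ α * y v₁ := mul_nonneg hα n1
        have h4 : 0 ≤ β * y w₁ := mul_nonneg hβ n2
        have h5 : β * y w₁ = 0 := by linarith
        rcases mul_eq_zero.mp h5 with h | h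
        · exact h
        · linarith
      have hα1 : α = 1 := by linarith
      rw [hβ0, hα1, one_smul, zero_smul, add_zero] at hvαβ
      exact ⟨w₁, hw₁, fw₁, y'w₁, h2, by rw [← hvαβ]; exact hvw₁⟩
    · have h1 : 0 < y v₁ := by
        rcases n1.lt_or_eq with h1 | h1
        · exact h1
        · rw [← h1, ← h2, mul_zero, mul_zero, add_zero] at e2
          exact absurd e2 (lt_irrefl _)
      have hα0 : α = 0 := by
        have h5 : α * y v₁ = 0 := by rw [← h2, mul_zero, add_zero] at e1; exact e1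
        rcases mul_eq_zero.mp h5 with h | h
        · exact h
        · linarith
      have hβ1 : β = 1 := by linarith
      rw [hα0, hβ1, one_smul, zero_smul, zero_add] at hvαβ
      exact ⟨v₁, hv₁, fv₁, y'v₁, h1, by rw [← hvαβ, norm_sub_rev]; exact hvw₁⟩
  obtain ⟨b, hb, fb, y'b, yb, hvb⟩ := hother
  have hface : ∀ x : E, ‖x‖ ≤ 1 → f₀ x = 1 → 0 ≤ y' x := fun x hx hfx =>
    faceNonneg hH hfin hT hf hX hx hfx
  refine ⟨y', hface, y'v, y'w, b, hb, fb, ?_, y'b⟩
  obtain ⟨k, hk, kv, kb⟩ := exists_h hv hb hvb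
  have hli : LinearIndependent ℝ ![v, w, b] := by
    apply li3
    intro a b' c habc
    have e1 := congrArg f₀ habc
    have e2 := congrArg y habc
    have e3 := congrArg h habc
    simp only [map_add, map_smul, smul_eq_mul, map_zero, fv, fw, fb, yv, yw, hhv,
      hhw] at e1 e2 e3
    have hc : c = 0 := by
      have : c * y b = 0 := by linarith
      rcases mul_eq_zero.mp this with h | h
      · exact h
      · linarith
    subst hc
    refine ⟨by linarith, by linarith, rfl⟩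
  obtain ⟨A, B, C, hABC⟩ := expand hfin hli p
  have c1 := congrArg f₀ hABC
  have c2 := congrArg y hABC
  have c3 := congrArg y' hABC
  have c4 := congrArg k hABC
  simp only [map_add, map_smul, smul_eq_mul, fp, fv, fw, fb, yp, yv, yw, y'v, y'w, y'b, kv,
    kb] at c1 c2 c3 c4
  have hB : 0 ≤ B := by
    have := hface p hp fp
    linarith
  have kw := (abs_le.mp (clm_le hk hw)).2
  have kp := (abs_le.mp (clm_le hk hp)).1
  have hBk : B * k w ≤ B * 1 := mul_le_mul_of_nonneg_left kw hB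
  have hC : C ≤ 1 := by linarith
  have hmle : m ≤ y b := by
    have : C * y b ≤ 1 * y b := mul_le_mul_of_nonneg_right hC yb.le
    linarith
  linarith [hm b hb fb]

end Plane

theorem specPlane (hF : SpecFirst) (hS : SpecSide) (hH : SpecHull) : SpecPlane := by
  intro E _ _ T hfin hT f₀ hf hspan
  classical
  obtain ⟨y, hy, ⟨t₀, ht₀, hft₀, hyt₀⟩, v₀, hv₀, w₀, hw₀, hne, fv₀, fw₀, yv₀, yw₀⟩ :=
    hF E (X T) hfin f₀ hspan
  obtain ⟨v, w, hv, hw, fv, fw, yv, yw, hvw, -⟩ :=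
    hS E T hfin hT f₀ hf y hy ⟨t₀, hft₀, hyt₀.ne'⟩
      ⟨v₀, w₀, hne, (hT.normX hv₀).le, (hT.normX hw₀).le, fv₀, fw₀, yv₀, yw₀⟩
  obtain ⟨h, hh, hhv, hhw⟩ := Plane.exists_h hv hw hvw
  obtain ⟨p, hpF, hmax⟩ := ((X T).filter (fun t => f₀ t = 1)).exists_max_image
    (fun t => y t) ⟨t₀, by rw [Finset.mem_filter]; exact ⟨ht₀, hft₀⟩⟩
  rw [Finset.mem_filter] at hpF
  obtain ⟨hpX, fp⟩ := hpF
  have hp : ‖p‖ ≤ 1 := (hT.normX hpX).le
  have hm0 : 0 < y p :=
    lt_of_lt_of_le hyt₀ (hmax t₀ (by rw [Finset.mem_filter]; exact ⟨ht₀, hft₀⟩))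
  have hy0 : ∀ x : E, ‖x‖ ≤ 1 → f₀ x = 1 → 0 ≤ y x := fun x hx hfx =>
    Plane.faceNonneg hH hfin hT hf hy hx hfx
  have hm : ∀ x : E, ‖x‖ ≤ 1 → f₀ x = 1 → y x ≤ y p := by
    intro x hx hfx
    have := Plane.faceNonneg hH hfin hT (y := (y p) • f₀ - y) hf (fun t ht hft => by
      have := hmax t (by rw [Finset.mem_filter]; exact ⟨ht, hft⟩)
      simp only [ContinuousLinearMap.sub_apply, ContinuousLinearMap.smul_apply, smul_eq_mul, hft]
      linarith) hx hfx
    simp only [ContinuousLinearMap.sub_apply, ContinuousLinearMap.smul_apply, smul_eq_mul,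
      hfx] at this
    linarith
  by_cases hcase : ∃ p' q' : E, p' ≠ q' ∧ ‖p'‖ ≤ 1 ∧ ‖q'‖ ≤ 1 ∧ f₀ p' = 1 ∧ f₀ q' = 1 ∧
      y p' = y p ∧ y q' = y p
  · exact Or.inr (Plane.case1 hS hfin hT hf hh hv hw fv fw yv yw hhv hhw hvw hm0 hm hy0 hcase)
  · left
    have huniq : ∀ b : E, ‖b‖ ≤ 1 → f₀ b = 1 → y b = y p → b = p := by
      intro b hb fb yb
      by_contra hne
      exact hcase ⟨b, p, hne, hb, hp, fb, fp, yb, rfl⟩
    obtain ⟨y₁, hy₁, y₁v, y₁w, b₁, hb₁, fb₁, yb₁, y₁b₁⟩ :=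
      Plane.sidepoint hS hH hfin hT hf hh hv hw fv fw yv yw hhv hhw hm0 hm hy0 hpX fp rfl
    obtain ⟨y₂, hy₂, y₂w, y₂v, b₂, hb₂, fb₂, yb₂, y₂b₂⟩ :=
      Plane.sidepoint hS hH hfin hT (h := -h) hf (by rw [norm_neg]; exact hh) hw hv fw fv yw yv
        (by simp [hhw]) (by simp [hhv]) hm0 hm hy0 hpX fp rfl
    have hb₁p := huniq b₁ hb₁ fb₁ yb₁
    have hb₂p := huniq b₂ hb₂ fb₂ yb₂
    rw [hb₁p] at y₁b₁
    rw [hb₂p] at y₂b₂
    have hli : LinearIndependent ℝ ![v, w, p] := by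
      apply Plane.li3
      intro a b c habc
      have e1 := congrArg f₀ habc
      have e2 := congrArg y habc
      have e3 := congrArg h habc
      simp only [map_add, map_smul, smul_eq_mul, map_zero, fv, fw, fp, yv, yw, hhv,
        hhw] at e1 e2 e3
      have hc : c = 0 := by
        have : c * y p = 0 := by linarith
        rcases mul_eq_zero.mp this with h | h
        · exact h
        · linarith
      subst hc
      refine ⟨by linarith, by linarith, rfl⟩
    refine ⟨v, w, p, hli, hv, hw, hp, ?_⟩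
    intro x hx fx
    obtain ⟨A, B, C, hABC⟩ := Plane.expand hfin hli x
    have c1 := congrArg f₀ hABC
    have c2 := congrArg y hABC
    have c3 := congrArg y₁ hABC
    have c4 := congrArg y₂ hABC
    simp only [map_add, map_smul, smul_eq_mul, fp, fv, fw, fx, yv, yw, y₁v, y₁w, y₁b₁,
      y₂v, y₂w, y₂b₂] at c1 c2 c3 c4
    have hA : 0 ≤ A := by
      have := hy₂ x hx fx
      linarith
    have hB : 0 ≤ B := by
      have := hy₁ x hx fx
      linarith
    have hC : 0 ≤ C := by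
      have h1 := hy0 x hx fx
      by_contra hlt
      push Not at hlt
      have : C * y p < 0 := mul_neg_of_neg_of_pos hlt hm0
      linarith
    have hsum := (convex_convexHull ℝ ({v, w, p} : Set E)).sum_mem
      (t := Finset.univ) (w := ![A, B, C]) (z := ![v, w, p])
      (by
        intro i _
        fin_cases i
        · exact hA
        · exact hB
        · exact hC)
      (by
        rw [Fin.sum_univ_three]
        show A + B + C = 1
        linarith)
      (by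
        intro i _
        apply subset_convexHull
        fin_cases i
        · exact Or.inl rfl
        · exact Or.inr (Or.inl rfl)
        · exact Or.inr (Or.inr rfl))
    rw [Fin.sum_univ_three] at hsum
    rw [hABC]
    exact hsum

end MP50d2fe
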