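import Pool.Agent.Lib.MP_50d2fe_co.Spec

/-!
MP_50d2fe_co, module SIDE: one-dimensional faces of a facet are segments of length 2.
-/

set_option autoImplicit false

namespace MP50d2fe

namespace Side

variable {E : Type} [NormedAddCommGroup E] [NormedSpace ℝ E]

theorem line (hE : Module.finrank ℝ E = 3) (f₀ y : E →L[ℝ] ℝ) {a₀ a d : E} (h0 : y a₀ ≠ 0)
    (h0' : f₀ a₀ = 1) (ha : f₀ a = 1) (ha' : y a = 0) (hd : d ≠ 0) (hd1 : f₀ d = 0)
    (hd2 : y d = 0) (x : E) (hx : f₀ x = 1) (hx' : y x = 0) : ∃ c : ℝ, x = a + c • d := by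
  have : Module.Finite ℝ E := Module.finite_of_finrank_pos (by omega)
  let L : E →ₗ[ℝ] ℝ × ℝ := (f₀ : E →ₗ[ℝ] ℝ).prod (y : E →ₗ[ℝ] ℝ)
  have hL : ∀ z, L z = (f₀ z, y z) := fun z => rfl
  have hsurj : Function.Surjective L := by
    rintro ⟨p, q⟩
    refine ⟨p • a + (q / y a₀) • (a₀ - a), ?_⟩
    rw [hL, map_add, map_add, map_smul, map_smul, map_smul, map_smul, map_sub, map_sub, ha, ha',
      h0', sub_self, sub_zero, smul_zero, smul_zero, smul_eq_mul, smul_eq_mul, mul_one, add_zero,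
      zero_add, div_mul_cancel₀ _ h0]
  have hr := LinearMap.finrank_range_add_finrank_ker L
  rw [LinearMap.range_eq_top.2 hsurj, finrank_top, Module.finrank_prod, Module.finrank_self,
    hE] at hr
  have hk : Module.finrank ℝ (LinearMap.ker L) = 1 := by omega
  have hdk : d ∈ LinearMap.ker L := by rw [LinearMap.mem_ker, hL, hd1, hd2]; rfl
  have hxk : x - a ∈ LinearMap.ker L := by
    rw [LinearMap.mem_ker, hL, map_sub, map_sub, hx, hx', ha, ha', sub_self, sub_self]; rfl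
  have hnz : (⟨d, hdk⟩ : LinearMap.ker L) ≠ 0 := by
    intro h
    exact hd (congrArg Subtype.val h)
  obtain ⟨c, hc⟩ := (finrank_eq_one_iff_of_nonzero' (⟨d, hdk⟩ : LinearMap.ker L) hnz).1 hk
    ⟨x - a, hxk⟩
  refine ⟨c, ?_⟩
  have h1 : c • d = x - a := congrArg Subtype.val hc
  rw [h1]
  abel

end Side

theorem specSide (hX : SpecExpo) (hEd : SpecEdge) : SpecSide := by
  intro E _ _ T hE hT f₀ hf₀ y hy h1 h2
  obtain ⟨a₀, h0', h0⟩ := h1
  obtain ⟨a, b, hab, na, nb, ha, hb, ha', hb'⟩ := h2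
  obtain ⟨f, hf, hface⟩ := hX E T hE hT f₀ hf₀ y hy
  set d : E := b - a with hddef
  have hd : d ≠ 0 := sub_ne_zero.2 hab.symm
  have hd1 : f₀ d = 0 := by rw [hddef, map_sub, ha, hb, sub_self]
  have hd2 : y d = 0 := by rw [hddef, map_sub, ha', hb', sub_self]
  have hline := Side.line hE f₀ y h0 h0' ha ha' hd hd1 hd2
  have hdn : 0 < ‖d‖ := norm_pos_iff.2 hd
  -- the parameters of the face
  let C : Set ℝ := {c : ℝ | ‖a + c • d‖ ≤ 1}
  have hclosed : IsClosed C := by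
    apply isClosed_le _ continuous_const
    exact (continuous_const.add (continuous_id.smul continuous_const)).norm
  have hbdd : C ⊆ Set.Icc (-(2 / ‖d‖)) (2 / ‖d‖) := by
    intro c hc
    have hc' : ‖a + c • d‖ ≤ 1 := hc
    have h3 : ‖c • d‖ ≤ 2 := by
      have h4 : c • d = (a + c • d) - a := by abel
      rw [h4]
      have := norm_sub_le (a + c • d) a
      linarith
    rw [norm_smul, Real.norm_eq_abs] at h3
    have h5 : |c| ≤ 2 / ‖d‖ := by rw [le_div_iff₀ hdn]; exact h3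
    exact abs_le.1 h5
  have hcomp : IsCompact C := isCompact_Icc.of_isClosed_subset hclosed hbdd
  have hC0 : (0 : ℝ) ∈ C := by
    change ‖a + (0:ℝ) • d‖ ≤ 1
    rw [zero_smul, add_zero]; exact na
  have hC1 : (1 : ℝ) ∈ C := by
    change ‖a + (1:ℝ) • d‖ ≤ 1
    rw [one_smul, hddef, add_sub_cancel]; exact nb
  obtain ⟨c0, hc0, hmin⟩ := hcomp.exists_isLeast ⟨0, hC0⟩
  obtain ⟨c1, hc1, hmax⟩ := hcomp.exists_isGreatest ⟨0, hC0⟩
  have e0 : c0 ≤ 0 := hmin hC0
  have e1 : 1 ≤ c1 := hmax hC1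
  have hf0 : ∀ c : ℝ, f₀ (a + c • d) = 1 := by
    intro c
    rw [map_add, map_smul, ha, hd1, smul_zero, add_zero]
  have hy0 : ∀ c : ℝ, y (a + c • d) = 0 := by
    intro c
    rw [map_add, map_smul, ha', hd2, smul_zero, add_zero]
  have hseg : ∀ x : E, ‖x‖ ≤ 1 → f₀ x = 1 → y x = 0 →
      x ∈ segment ℝ (a + c0 • d) (a + c1 • d) := by
    intro x hx hx1 hx2
    obtain ⟨c, rfl⟩ := hline x hx1 hx2
    have hcC : c ∈ C := hx
    have l0 : c0 ≤ c := hmin hcC
    have l1 : c ≤ c1 := hmax hcC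
    have hpos : 0 < c1 - c0 := by linarith
    refine ⟨(c1 - c) / (c1 - c0), (c - c0) / (c1 - c0), div_nonneg (by linarith) hpos.le,
      div_nonneg (by linarith) hpos.le, ?_, ?_⟩
    · rw [← add_div, div_eq_one_iff_eq hpos.ne']
      ring
    · have k1 : (c1 - c) / (c1 - c0) + (c - c0) / (c1 - c0) = 1 := by
        rw [← add_div, div_eq_one_iff_eq hpos.ne']
        ring
      have k2 : (c1 - c) / (c1 - c0) * c0 + (c - c0) / (c1 - c0) * c1 = c := by
        field_simp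
        ring
      calc ((c1 - c) / (c1 - c0)) • (a + c0 • d) + ((c - c0) / (c1 - c0)) • (a + c1 • d)
          = ((c1 - c) / (c1 - c0) + (c - c0) / (c1 - c0)) • a +
            ((c1 - c) / (c1 - c0) * c0 + (c - c0) / (c1 - c0) * c1) • d := by
            rw [smul_add, smul_add, smul_smul, smul_smul, add_smul, add_smul]
            abel
        _ = a + c • d := by rw [k1, k2, one_smul]
  have hvw : a + c0 • d ≠ a + c1 • d := by
    intro h
    have h3 : (c1 - c0) • d = 0 := by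
      rw [sub_smul]
      have := add_left_cancel h
      rw [this, sub_self]
    rcases smul_eq_zero.1 h3 with h4 | h4
    · linarith
    · exact hd h4
  have hlen := hEd E T hE hT f hf (a + c0 • d) (a + c1 • d) hvw hc0 hc1
    ((hface _ hc0).2 ⟨hf0 c0, hy0 c0⟩) ((hface _ hc1).2 ⟨hf0 c1, hy0 c1⟩)
    (fun x hx hfx => hseg x hx ((hface x hx).1 hfx).1 ((hface x hx).1 hfx).2)
  exact ⟨a + c0 • d, a + c1 • d, hc0, hc1, hf0 c0, hf0 c1, hy0 c0, hy0 c1, hlen, hseg⟩

end MP50d2fe
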