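import Pool.Agent.Lib.MP_50d2fe_co.Defs

/-!
Specifications of the modules.  Every module is one file `Pool/Agent/Lib/MP_50d2fe_co/<Name>.lean`
proving `theorem specXxx (hyps : the Specs named) : SpecXxx`, own lemmas in namespace
`MP50d2fe.<Name>`.  Paper proof: /team-store/MP_50d2fe_co_PROOF.md.
-/

set_option autoImplicit false

open MeasureTheory

namespace MP50d2fe

/-- MATCH: for every `z` in the ball of radius 1/2 some `t` has no partner. -/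
def SpecMatch : Prop :=
  ∀ (E : Type) [NormedAddCommGroup E] [NormedSpace ℝ E] (T : Finset E), Conf T →
    ∀ z : E, ‖z‖ ≤ 1 / 2 → ∃ t ∈ T, ∀ s ∈ T, 1 / 2 ≤ ‖z - t - s‖

/-- COVER, part A: the ball of radius 3/2 is covered by the balls of radius 1/2 around 0 and
the points of `T ∪ -T`. -/
def SpecCoverA : Prop :=
  ∀ (E : Type) [NormedAddCommGroup E] [NormedSpace ℝ E] (T : Finset E),
    Module.finrank ℝ E = 3 → Conf T →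
    ∀ x : E, ‖x‖ ≤ 3 / 2 → ‖x‖ ≤ 1 / 2 ∨ ∃ t ∈ X T, ‖x - t‖ ≤ 1 / 2

/-- COVER, part B: no two points of `T` are both strictly unmatched at the same `z`. -/
def SpecCoverB : Prop :=
  ∀ (E : Type) [NormedAddCommGroup E] [NormedSpace ℝ E] (T : Finset E),
    Module.finrank ℝ E = 3 → Conf T →
    ∀ z : E, ‖z‖ ≤ 1 / 2 → ∀ t ∈ T, ∀ t' ∈ T, t ≠ t' →
      ∃ s ∈ T, ‖z - t - s‖ ≤ 1 / 2 ∨ ‖z - t' - s‖ ≤ 1 / 2

/-- COVER, part C: the sets `R T t` are disjoint up to measure zero. -/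
def SpecCoverC : Prop :=
  ∀ (E : Type) [NormedAddCommGroup E] [NormedSpace ℝ E] [MeasurableSpace E] [BorelSpace E]
    (μ : Measure E) [μ.IsAddHaarMeasure] (T : Finset E),
    Module.finrank ℝ E = 3 → Conf T →
    ∀ t ∈ T, ∀ t' ∈ T, t ≠ t' → μ (R T t ∩ R T t') = 0

/-- LAYER: a supporting plane which meets the unit ball in a two-dimensional face contains at
least 8 points of `T`. -/
def SpecLayer : Prop :=
  ∀ (E : Type) [NormedAddCommGroup E] [NormedSpace ℝ E] (T : Finset E),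
    Module.finrank ℝ E = 3 → Conf T →
    ∀ f : E →L[ℝ] ℝ, ‖f‖ ≤ 1 →
      (∃ w : Fin 3 → E, LinearIndependent ℝ w ∧ ∀ i, ‖w i‖ ≤ 1 ∧ f (w i) = 1) →
      ∃ S : Finset E, S ⊆ T ∧ 8 ≤ S.card ∧ ∀ t ∈ S, f t = 1

/-- DUAL: every functional attains its norm on `T ∪ -T`. -/
def SpecDual : Prop :=
  ∀ (E : Type) [NormedAddCommGroup E] [NormedSpace ℝ E] (T : Finset E),
    Module.finrank ℝ E = 3 → Conf T →
    ∀ f : E →L[ℝ] ℝ, ∃ t ∈ X T, f t = ‖f‖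

/-- HULL: the unit ball is the convex hull of `T ∪ -T`. -/
def SpecHull : Prop :=
  ∀ (E : Type) [NormedAddCommGroup E] [NormedSpace ℝ E] (T : Finset E),
    Module.finrank ℝ E = 3 → Conf T →
    ∀ x : E, ‖x‖ ≤ 1 → x ∈ convexHull ℝ (X T : Set E)

/-- FACET: there is a functional of norm at most 1 whose contact points span `E`. -/
def SpecFacet : Prop :=
  ∀ (E : Type) [NormedAddCommGroup E] [NormedSpace ℝ E] (T : Finset E),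
    Module.finrank ℝ E = 3 → Conf T →
    ∃ f : E →L[ℝ] ℝ, ‖f‖ ≤ 1 ∧ Submodule.span ℝ {t : E | t ∈ X T ∧ f t = 1} = ⊤

/-- EXPO: faces of faces are exposed. -/
def SpecExpo : Prop :=
  ∀ (E : Type) [NormedAddCommGroup E] [NormedSpace ℝ E] (T : Finset E),
    Module.finrank ℝ E = 3 → Conf T →
    ∀ f₀ : E →L[ℝ] ℝ, ‖f₀‖ ≤ 1 → ∀ y : E →L[ℝ] ℝ, (∀ t ∈ X T, f₀ t = 1 → 0 ≤ y t) →
      ∃ f : E →L[ℝ] ℝ, ‖f‖ ≤ 1 ∧ ∀ x : E, ‖x‖ ≤ 1 → (f x = 1 ↔ f₀ x = 1 ∧ y x = 0)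

/-- EDGE: an exposed edge of the unit ball has length exactly 2. -/
def SpecEdge : Prop :=
  ∀ (E : Type) [NormedAddCommGroup E] [NormedSpace ℝ E] (T : Finset E),
    Module.finrank ℝ E = 3 → Conf T →
    ∀ f : E →L[ℝ] ℝ, ‖f‖ ≤ 1 → ∀ v w : E, v ≠ w → ‖v‖ ≤ 1 → ‖w‖ ≤ 1 → f v = 1 → f w = 1 →
      (∀ x : E, ‖x‖ ≤ 1 → f x = 1 → x ∈ segment ℝ v w) → ‖v - w‖ = 2

/-- SIDE: a one-dimensional face `{f₀ = 1, y = 0}` of the unit ball is a segment of length 2. -/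
def SpecSide : Prop :=
  ∀ (E : Type) [NormedAddCommGroup E] [NormedSpace ℝ E] (T : Finset E),
    Module.finrank ℝ E = 3 → Conf T →
    ∀ f₀ : E →L[ℝ] ℝ, ‖f₀‖ ≤ 1 → ∀ y : E →L[ℝ] ℝ, (∀ t ∈ X T, f₀ t = 1 → 0 ≤ y t) →
      (∃ a : E, f₀ a = 1 ∧ y a ≠ 0) →
      (∃ a b : E, a ≠ b ∧ ‖a‖ ≤ 1 ∧ ‖b‖ ≤ 1 ∧ f₀ a = 1 ∧ f₀ b = 1 ∧ y a = 0 ∧ y b = 0) →
      ∃ v w : E, ‖v‖ ≤ 1 ∧ ‖w‖ ≤ 1 ∧ f₀ v = 1 ∧ f₀ w = 1 ∧ y v = 0 ∧ y w = 0 ∧ ‖v - w‖ = 2 ∧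
        ∀ x : E, ‖x‖ ≤ 1 → f₀ x = 1 → y x = 0 → x ∈ segment ℝ v w

/-- FIRST: a facet has an edge (gift wrapping; pure linear algebra). -/
def SpecFirst : Prop :=
  ∀ (E : Type) [NormedAddCommGroup E] [NormedSpace ℝ E] (Y : Finset E),
    Module.finrank ℝ E = 3 →
    ∀ f₀ : E →L[ℝ] ℝ, Submodule.span ℝ {t : E | t ∈ Y ∧ f₀ t = 1} = ⊤ →
      ∃ y : E →L[ℝ] ℝ, (∀ t ∈ Y, f₀ t = 1 → 0 ≤ y t) ∧ (∃ t ∈ Y, f₀ t = 1 ∧ 0 < y t) ∧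
        ∃ v ∈ Y, ∃ w ∈ Y, v ≠ w ∧ f₀ v = 1 ∧ f₀ w = 1 ∧ y v = 0 ∧ y w = 0

/-- PLANE: a facet is a triangle, or the unit ball is a parallelepiped. -/
def SpecPlane : Prop :=
  ∀ (E : Type) [NormedAddCommGroup E] [NormedSpace ℝ E] (T : Finset E),
    Module.finrank ℝ E = 3 → Conf T →
    ∀ f₀ : E →L[ℝ] ℝ, ‖f₀‖ ≤ 1 → Submodule.span ℝ {t : E | t ∈ X T ∧ f₀ t = 1} = ⊤ →
      (∃ v w p : E, LinearIndependent ℝ ![v, w, p] ∧ ‖v‖ ≤ 1 ∧ ‖w‖ ≤ 1 ∧ ‖p‖ ≤ 1 ∧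
        ∀ x : E, ‖x‖ ≤ 1 → f₀ x = 1 → x ∈ convexHull ℝ ({v, w, p} : Set E)) ∨
      ∃ f : Fin 3 → (E →L[ℝ] ℝ), LinearIndependent ℝ f ∧
        ∀ x : E, ‖x‖ ≤ 1 ↔ ∀ i, |f i x| ≤ 1

/-- TRI: a triangle with vertices in the unit ball contains at most 7 points with mutual
distances at least 1. -/
def SpecTri : Prop :=
  ∀ (E : Type) [NormedAddCommGroup E] [NormedSpace ℝ E] (v w p : E),
    LinearIndependent ℝ ![v, w, p] → ‖v‖ ≤ 1 → ‖w‖ ≤ 1 → ‖p‖ ≤ 1 →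
    ∀ S : Finset E, (∀ s ∈ S, s ∈ convexHull ℝ ({v, w, p} : Set E)) →
      (∀ s ∈ S, ∀ s' ∈ S, s ≠ s' → 1 ≤ ‖s - s'‖) → S.card ≤ 7

/-- MAIN: the unit ball is a parallelepiped. -/
def SpecMain : Prop :=
  ∀ (E : Type) [NormedAddCommGroup E] [NormedSpace ℝ E] (T : Finset E),
    Module.finrank ℝ E = 3 → Conf T →
    ∃ f : Fin 3 → (E →L[ℝ] ℝ), LinearIndependent ℝ f ∧ ∀ x : E, ‖x‖ ≤ 1 ↔ ∀ i, |f i x| ≤ 1

/-- NORM: the same statement for a symmetric convex body of Euclidean space (the norm is the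
gauge of `K`). -/
def SpecNorm : Prop :=
  ∀ K : Set (EuclideanSpace ℝ (Fin 3)), IsCompact K → Convex ℝ K → (interior K).Nonempty →
    (∀ x ∈ K, -x ∈ K) →
    ∀ v : Fin 25 → EuclideanSpace ℝ (Fin 3), (∀ i, v i ∈ K) → (∀ i, v i ∉ interior K) →
      (∀ i j, i ≠ j → v i - v j ∉ interior K) →
      ∃ f : Fin 3 → (EuclideanSpace ℝ (Fin 3) →ₗ[ℝ] ℝ), LinearIndependent ℝ f ∧
        ∀ x, x ∈ K ↔ ∀ i, |f i x| ≤ 1

/-- BODY: if the difference body of `K` is a parallelepiped, then so is `K`. -/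
def SpecBody : Prop :=
  ∀ K : Set (EuclideanSpace ℝ (Fin 3)), IsCompact K → Convex ℝ K → K.Nonempty →
    ∀ f : Fin 3 → (EuclideanSpace ℝ (Fin 3) →ₗ[ℝ] ℝ), LinearIndependent ℝ f →
      (∀ x, (∃ a ∈ K, ∃ b ∈ K, x = a - b) ↔ ∀ i, |f i x| ≤ 1) →
      ∃ p : EuclideanSpace ℝ (Fin 3), ∃ u : Fin 3 → EuclideanSpace ℝ (Fin 3),
        LinearIndependent ℝ u ∧
        K = {x | ∃ t : Fin 3 → ℝ, (∀ k, t k ∈ Set.Icc (0:ℝ) 1) ∧ x = p + ∑ k, t k • u k}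

/-- DIFF: interiors of difference bodies. -/
def SpecDiff : Prop :=
  ∀ K : Set (EuclideanSpace ℝ (Fin 3)), Convex ℝ K → (interior K).Nonempty →
    ∀ v : EuclideanSpace ℝ (Fin 3),
      v ∈ interior {x : EuclideanSpace ℝ (Fin 3) | ∃ a ∈ K, ∃ b ∈ K, x = a - b} →
      ∃ a ∈ interior K, ∃ b ∈ interior K, v = a - b

end MP50d2fe
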