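import Pool.Agent.Lib.MP_50d2fe_co.Spec

/-!
MP_50d2fe_co, module TRI: a triangle with vertices in the unit ball contains at most 7 points with
mutual distances at least 1.
-/

set_option autoImplicit false

namespace MP50d2fe

namespace Tri

section Comb

variable {α : Type}

/-- barycentric coordinates `A, B, C` of a finite set, separated by `1/2` in the maximum norm -/
structure Good (S : Finset α) (A B C : α → ℝ) : Prop where
  a : ∀ s ∈ S, 0 ≤ A s
  b : ∀ s ∈ S, 0 ≤ B s
  c : ∀ s ∈ S, 0 ≤ C s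
  sum : ∀ s ∈ S, A s + B s + C s = 1
  sep : ∀ s ∈ S, ∀ s' ∈ S, s ≠ s' →
    1 / 2 ≤ |A s - A s'| ∨ 1 / 2 ≤ |B s - B s'| ∨ 1 / 2 ≤ |C s - C s'|

theorem Good.swap {S : Finset α} {A B C : α → ℝ} (h : Good S A B C) : Good S B A C where
  a := h.b
  b := h.a
  c := h.c
  sum s hs := by have := h.sum s hs; linarith
  sep s hs s' hs' hne := by
    rcases h.sep s hs s' hs' hne with h1 | h1 | h1
    · exact Or.inr (Or.inl h1)
    · exact Or.inl h1
    · exact Or.inr (Or.inr h1)

theorem Good.rot {S : Finset α} {A B C : α → ℝ} (h : Good S A B C) : Good S C A B where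
  a := h.c
  b := h.a
  c := h.b
  sum s hs := by have := h.sum s hs; linarith
  sep s hs s' hs' hne := by
    rcases h.sep s hs s' hs' hne with h1 | h1 | h1
    · exact Or.inr (Or.inl h1)
    · exact Or.inr (Or.inr h1)
    · exact Or.inl h1

open Classical in
/-- the points with first coordinate at least `1/2` -/
noncomputable def big (S : Finset α) (A : α → ℝ) : Finset α := S.filter (fun s => 1 / 2 ≤ A s)

theorem mem_big {S : Finset α} {A : α → ℝ} {s : α} : s ∈ big S A ↔ s ∈ S ∧ 1 / 2 ≤ A s := by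
  classical
  unfold big
  rw [Finset.mem_filter]

open Classical in
/-- labels -/
noncomputable def lab (A B : α → ℝ) (s : α) : Fin 3 :=
  if 1 / 2 < A s then 0 else if 0 < B s then 1 else 2

theorem lab_inj {S : Finset α} {A B C : α → ℝ} (h : Good S A B C) {s s' : α}
    (hs : s ∈ big S A) (hs' : s' ∈ big S A) (hl : lab A B s = lab A B s') : s = s' := by
  by_contra hne
  rw [mem_big] at hs hs'
  obtain ⟨hs, hA⟩ := hs
  obtain ⟨hs', hA'⟩ := hs'
  have b1 := h.b s hs
  have b2 := h.b s' hs'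
  have c1 := h.c s hs
  have c2 := h.c s' hs'
  have u1 := h.sum s hs
  have u2 := h.sum s' hs'
  have hsep := h.sep s hs s' hs' hne
  unfold lab at hl
  by_cases p1 : 1 / 2 < A s
  · by_cases p2 : 1 / 2 < A s'
    · rcases hsep with h1 | h1 | h1 <;> rcases le_abs.1 h1 with h2 | h2 <;> linarith
    · rw [if_pos p1, if_neg p2] at hl
      by_cases q2 : 0 < B s'
      · rw [if_pos q2] at hl; exact absurd hl (by decide)
      · rw [if_neg q2] at hl; exact absurd hl (by decide)
  · by_cases p2 : 1 / 2 < A s'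
    · rw [if_neg p1, if_pos p2] at hl
      by_cases q1 : 0 < B s
      · rw [if_pos q1] at hl; exact absurd hl (by decide)
      · rw [if_neg q1] at hl; exact absurd hl (by decide)
    · rw [if_neg p1, if_neg p2] at hl
      by_cases q1 : 0 < B s
      · by_cases q2 : 0 < B s'
        · rcases hsep with h1 | h1 | h1 <;> rcases le_abs.1 h1 with h2 | h2 <;> linarith
        · rw [if_pos q1, if_neg q2] at hl; exact absurd hl (by decide)
      · by_cases q2 : 0 < B s'
        · rw [if_neg q1, if_pos q2] at hl; exact absurd hl (by decide)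
        · rcases hsep with h1 | h1 | h1 <;> rcases le_abs.1 h1 with h2 | h2 <;> linarith

theorem card_big {S : Finset α} {A B C : α → ℝ} (h : Good S A B C) : (big S A).card ≤ 3 := by
  have h1 := Finset.card_le_card_of_injOn (s := big S A) (t := (Finset.univ : Finset (Fin 3)))
    (lab A B) (fun _ _ => Finset.mem_univ _)
    (fun s hs s' hs' hl => lab_inj h (Finset.mem_coe.1 hs) (Finset.mem_coe.1 hs') hl)
  simpa using h1

theorem exists_lab {S : Finset α} {A B C : α → ℝ} (h : Good S A B C)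
    (hc : 3 ≤ (big S A).card) (i : Fin 3) : ∃ s ∈ big S A, lab A B s = i := by
  classical
  have hinj : Set.InjOn (lab A B) (big S A : Set α) :=
    fun s hs s' hs' hl => lab_inj h (Finset.mem_coe.1 hs) (Finset.mem_coe.1 hs') hl
  have h1 : ((big S A).image (lab A B)).card = (big S A).card := Finset.card_image_of_injOn hinj
  have h2 : (big S A).image (lab A B) = Finset.univ := by
    apply Finset.eq_univ_of_card
    have h3 := Finset.card_le_univ ((big S A).image (lab A B))
    rw [Fintype.card_fin] at h3 ⊢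
    omega
  have h3 : i ∈ (big S A).image (lab A B) := by rw [h2]; exact Finset.mem_univ _
  obtain ⟨s, hs, hi⟩ := Finset.mem_image.1 h3
  exact ⟨s, hs, hi⟩

theorem card_of_three {S : Finset α} {A B C : α → ℝ} (h : Good S A B C)
    (hc : 3 ≤ (big S A).card) : S.card ≤ 7 := by
  classical
  obtain ⟨s1, hs1, hl1⟩ := exists_lab h hc 1
  obtain ⟨s2, hs2, hl2⟩ := exists_lab h hc 2
  have m1 := (mem_big.1 hs1).1
  have m2 := (mem_big.1 hs2).1
  have hA1 := (mem_big.1 hs1).2
  have hA2 := (mem_big.1 hs2).2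
  have n1 : ¬ 1 / 2 < A s1 ∧ 0 < B s1 := by
    unfold lab at hl1
    by_cases p : 1 / 2 < A s1
    · rw [if_pos p] at hl1; exact absurd hl1 (by decide)
    · rw [if_neg p] at hl1
      by_cases q : 0 < B s1
      · exact ⟨p, q⟩
      · rw [if_neg q] at hl1; exact absurd hl1 (by decide)
  have n2 : ¬ 1 / 2 < A s2 ∧ ¬ 0 < B s2 := by
    unfold lab at hl2
    by_cases p : 1 / 2 < A s2
    · rw [if_pos p] at hl2; exact absurd hl2 (by decide)
    · rw [if_neg p] at hl2
      by_cases q : 0 < B s2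
      · rw [if_pos q] at hl2; exact absurd hl2 (by decide)
      · exact ⟨p, q⟩
  have hne : s1 ≠ s2 := by
    rintro rfl
    exact n2.2 n1.2
  have b1 := h.b s1 m1
  have b2 := h.b s2 m2
  have c1 := h.c s1 m1
  have c2 := h.c s2 m2
  have u1 := h.sum s1 m1
  have u2 := h.sum s2 m2
  have e2B : B s2 = 0 := le_antisymm (not_lt.1 n2.2) b2
  have e2A : A s2 = 1 / 2 := le_antisymm (not_lt.1 n2.1) hA2
  have e1A : A s1 = 1 / 2 := le_antisymm (not_lt.1 n1.1) hA1
  have e2C : C s2 = 1 / 2 := by linarith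
  have e1C : C s1 = 0 := by
    apply le_antisymm _ c1
    rcases h.sep s1 m1 s2 m2 hne with h1 | h1 | h1 <;> rcases le_abs.1 h1 with h2 | h2 <;> linarith
  have e1B : B s1 = 1 / 2 := by linarith
  have hF1 : s1 ∈ big S B := mem_big.2 ⟨m1, e1B.ge⟩
  have hF2 : s2 ∈ big S C := mem_big.2 ⟨m2, e2C.ge⟩
  have hsub : S ⊆ big S A ∪ ((big S B).erase s1 ∪ (big S C).erase s2) := by
    intro s hs
    have b := h.b s hs
    have c := h.c s hs
    have a := h.a s hs
    have u := h.sum s hs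
    rw [Finset.mem_union, Finset.mem_union, Finset.mem_erase, Finset.mem_erase]
    by_cases p0 : 1 / 2 ≤ A s
    · exact Or.inl (mem_big.2 ⟨hs, p0⟩)
    · right
      have h1 : s ≠ s1 := by rintro rfl; exact p0 hA1
      have h2 : s ≠ s2 := by rintro rfl; exact p0 hA2
      by_cases p1 : 1 / 2 ≤ B s
      · exact Or.inl ⟨h1, mem_big.2 ⟨hs, p1⟩⟩
      · by_cases p2 : 1 / 2 ≤ C s
        · exact Or.inr ⟨h2, mem_big.2 ⟨hs, p2⟩⟩
        · exfalso
          rcases h.sep s hs s1 m1 h1 with h3 | h3 | h3 <;> rcases le_abs.1 h3 with h4 | h4 <;>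
            linarith
  have k1 := Finset.card_le_card hsub
  have k2 := Finset.card_union_le (big S A) ((big S B).erase s1 ∪ (big S C).erase s2)
  have k3 := Finset.card_union_le ((big S B).erase s1) ((big S C).erase s2)
  have k4 := Finset.card_erase_of_mem hF1
  have k5 := Finset.card_erase_of_mem hF2
  have k6 := card_big h
  have k7 := card_big h.swap
  have k8 := card_big h.rot
  omega

theorem card_le_seven {S : Finset α} {A B C : α → ℝ} (h : Good S A B C) : S.card ≤ 7 := by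
  classical
  by_cases h0 : 3 ≤ (big S A).card
  · exact card_of_three h h0
  by_cases h1 : 3 ≤ (big S B).card
  · exact card_of_three h.swap h1
  by_cases h2 : 3 ≤ (big S C).card
  · exact card_of_three h.rot h2
  have h3 : (S.filter (fun s => A s < 1 / 2 ∧ B s < 1 / 2 ∧ C s < 1 / 2)).card ≤ 1 := by
    rw [Finset.card_le_one]
    intro s hs s' hs'
    rw [Finset.mem_filter] at hs hs'
    by_contra hne
    obtain ⟨m, p1, p2, p3⟩ := hs
    obtain ⟨m', p1', p2', p3'⟩ := hs'
    have := h.a s m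
    have := h.b s m
    have := h.c s m
    have := h.a s' m'
    have := h.b s' m'
    have := h.c s' m'
    rcases h.sep s m s' m' hne with h3 | h3 | h3 <;> rcases le_abs.1 h3 with h4 | h4 <;> linarith
  have hsub : S ⊆ big S A ∪ (big S B ∪ (big S C ∪
      (S.filter (fun s => A s < 1 / 2 ∧ B s < 1 / 2 ∧ C s < 1 / 2)))) := by
    intro s hs
    rw [Finset.mem_union, Finset.mem_union, Finset.mem_union, Finset.mem_filter, mem_big, mem_big,
      mem_big]
    by_cases p0 : 1 / 2 ≤ A s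
    · exact Or.inl ⟨hs, p0⟩
    · by_cases p1 : 1 / 2 ≤ B s
      · exact Or.inr (Or.inl ⟨hs, p1⟩)
      · by_cases p2 : 1 / 2 ≤ C s
        · exact Or.inr (Or.inr (Or.inl ⟨hs, p2⟩))
        · exact Or.inr (Or.inr (Or.inr ⟨hs, not_le.1 p0, not_le.1 p1, not_le.1 p2⟩))
  have k1 := Finset.card_le_card hsub
  have k2 := Finset.card_union_le (big S A) (big S B ∪ (big S C ∪
      (S.filter (fun s => A s < 1 / 2 ∧ B s < 1 / 2 ∧ C s < 1 / 2))))
  have k3 := Finset.card_union_le (big S B) (big S C ∪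
      (S.filter (fun s => A s < 1 / 2 ∧ B s < 1 / 2 ∧ C s < 1 / 2)))
  have k4 := Finset.card_union_le (big S C)
      (S.filter (fun s => A s < 1 / 2 ∧ B s < 1 / 2 ∧ C s < 1 / 2))
  omega

end Comb

section Geo

variable {E : Type} [NormedAddCommGroup E] [NormedSpace ℝ E]

/-- two differences of the same sign -/
theorem norm_le_two {v w p : E} (hv : ‖v‖ ≤ 1) (hw : ‖w‖ ≤ 1) (hp : ‖p‖ ≤ 1) {x y z : ℝ}
    (hs : x + y + z = 0) : ‖x • v + y • w + z • p‖ ≤ |x| + |y| + |z| := by
  have _ := hs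
  calc ‖x • v + y • w + z • p‖ ≤ ‖x • v‖ + ‖y • w‖ + ‖z • p‖ := norm_add₃_le
    _ ≤ |x| + |y| + |z| := by
      rw [norm_smul, norm_smul, norm_smul, Real.norm_eq_abs, Real.norm_eq_abs, Real.norm_eq_abs]
      have h1 := mul_le_mul_of_nonneg_left hv (abs_nonneg x)
      have h2 := mul_le_mul_of_nonneg_left hw (abs_nonneg y)
      have h3 := mul_le_mul_of_nonneg_left hp (abs_nonneg z)
      linarith

theorem sep_of_norm {v w p : E} (hv : ‖v‖ ≤ 1) (hw : ‖w‖ ≤ 1) (hp : ‖p‖ ≤ 1) {x y z : ℝ}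
    (hs : x + y + z = 0) (h : 1 ≤ ‖x • v + y • w + z • p‖) :
    1 / 2 ≤ |x| ∨ 1 / 2 ≤ |y| ∨ 1 / 2 ≤ |z| := by
  by_contra hcon
  push Not at hcon
  obtain ⟨h1, h2, h3⟩ := hcon
  have h4 := norm_le_two hv hw hp hs
  have h5 : |x| + |y| + |z| < 1 := by
    rw [abs_lt] at h1 h2 h3
    rcases abs_cases x with ⟨e1, _⟩ | ⟨e1, _⟩ <;> rcases abs_cases y with ⟨e2, _⟩ | ⟨e2, _⟩ <;>
      rcases abs_cases z with ⟨e3, _⟩ | ⟨e3, _⟩ <;> rw [e1, e2, e3] <;> linarith
  linarith

theorem coords {v w p s : E} (h : s ∈ convexHull ℝ ({v, w, p} : Set E)) :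
    ∃ a b c : ℝ, 0 ≤ a ∧ 0 ≤ b ∧ 0 ≤ c ∧ a + b + c = 1 ∧ s = a • v + b • w + c • p := by
  rw [convexHull_insert (by simp), convexHull_pair, mem_convexJoin] at h
  obtain ⟨x, hx, y, hy, hs⟩ := h
  rw [Set.mem_singleton_iff] at hx
  subst hx
  obtain ⟨a, b, ha, hb, hab, rfl⟩ := hy
  obtain ⟨c, d, hc, hd, hcd, rfl⟩ := hs
  refine ⟨c, d * a, d * b, hc, mul_nonneg hd ha, mul_nonneg hd hb, ?_, ?_⟩
  · rw [add_assoc, ← mul_add, hab, mul_one, hcd]
  · rw [smul_add, smul_smul, smul_smul, add_assoc]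

end Geo

end Tri

theorem specTri : SpecTri := by
  intro E _ _ v w p _ hv hw hp S hS hsep
  classical
  have h1 : ∀ s : E, ∃ a b c : ℝ, s ∈ S → (0 ≤ a ∧ 0 ≤ b ∧ 0 ≤ c ∧ a + b + c = 1 ∧
      s = a • v + b • w + c • p) := by
    intro s
    by_cases hs : s ∈ S
    · obtain ⟨a, b, c, h⟩ := Tri.coords (hS s hs)
      exact ⟨a, b, c, fun _ => h⟩
    · exact ⟨0, 0, 0, fun h => absurd h hs⟩
  choose A B C h2 using h1
  refine Tri.card_le_seven (A := A) (B := B) (C := C) ⟨fun s hs => (h2 s hs).1,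
    fun s hs => (h2 s hs).2.1, fun s hs => (h2 s hs).2.2.1, fun s hs => (h2 s hs).2.2.2.1, ?_⟩
  intro s hs s' hs' hne
  have h3 := hsep s hs s' hs' hne
  obtain ⟨-, -, -, e1, e2⟩ := h2 s hs
  obtain ⟨-, -, -, e1', e2'⟩ := h2 s' hs'
  have h4 : s - s' = (A s - A s') • v + (B s - B s') • w + (C s - C s') • p := by
    conv_lhs => rw [e2, e2']
    rw [sub_smul, sub_smul, sub_smul]
    abel
  rw [h4] at h3
  exact Tri.sep_of_norm hv hw hp (by linarith) h3

end MP50d2fe
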